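import Pool.Agent.CutFull.ClosedTop

/-!
Full cutoff, conditional part, row A5 (closed top and closed right side): the corner of the window
`[s, s + n)` has rank at least `min a (n - b) (rank of the corner of the whole system) - 2 m` off an
event of probability `n / 2 ^ m`.
-/

set_option autoImplicit false
set_option linter.unusedSectionVars false

namespace Pool.Agent.CutFull

open Finset Matrix Pool.Agent.Helper8.UT

variable {N : ℕ}

/-- a matrix which is a copy of `X` with zero rows and columns added has at most the rank of `X` -/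
theorem rank_ext {p q : ℕ} (X : MM p) (Y : MM q) (f g : Fin q → Option (Fin p))
    (hY : ∀ i j, Y i j = (f i).elim 0 (fun k => (g j).elim 0 (fun l => X k l))) :
    Y.rank ≤ X.rank := by
  have h : Y = (Matrix.of fun (i : Fin q) (k : Fin p) => if f i = some k then (1 : ZMod 2) else 0) *
      X * (Matrix.of fun (l : Fin p) (j : Fin q) => if g j = some l then (1 : ZMod 2) else 0) := by
    funext i j
    rw [hY i j, Matrix.mul_apply]
    have h1 : ∀ l : Fin p, ((Matrix.of fun (i : Fin q) (k : Fin p) =>
        if f i = some k then (1 : ZMod 2) else 0) * X) i l = (f i).elim 0 (fun k => X k l) := by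
      intro l
      rw [Matrix.mul_apply]
      cases hf : f i with
      | none => simp [hf]
      | some k =>
        rw [Finset.sum_eq_single k]
        · simp [hf]
        · intro k' _ hk
          have : ¬ k = k' := fun h => hk h.symm
          simp [hf, this]
        · intro h; exact absurd (Finset.mem_univ k) h
    simp only [h1]
    cases hg : g j with
    | none => cases f i <;> simp [hg]
    | some l =>
      rw [Finset.sum_eq_single l]
      · simp [hg]
      · intro l' _ hl
        have : ¬ l = l' := fun h => hl h.symm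
        simp [hg, this]
      · intro h; exact absurd (Finset.mem_univ l) h
  rw [h]
  exact (Matrix.rank_mul_le_left _ _).trans (Matrix.rank_mul_le_right _ _)

theorem rank_flip (X : MM N) : (Helper8.UT.flip X).rank = X.rank := by
  have h : Helper8.UT.flip X = Xᵀ.submatrix Fin.revPerm Fin.revPerm := by
    funext i j
    rfl
  rw [h, Matrix.rank_submatrix, Matrix.rank_transpose]

theorem cblk_flip {a b : ℕ} (ha : a ≤ N) (hb : b ≤ N) (A : MM N) :
    cblk (N - b) (N - a) (Helper8.UT.flip A) = Helper8.UT.flip (cblk a b A) := by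
  funext i j
  unfold cblk Helper8.UT.flip
  beta_reduce
  have hi := i.isLt
  have hj := j.isLt
  have h1 : (i.val < N - b ∧ N - a ≤ j.val) ↔ (j.rev.val < a ∧ b ≤ i.rev.val) := by
    rw [Fin.val_rev, Fin.val_rev]
    constructor
    · rintro ⟨h1, h2⟩
      constructor <;> omega
    · rintro ⟨h1, h2⟩
      constructor <;> omega
  by_cases h : i.val < N - b ∧ N - a ≤ j.val
  · rw [if_pos h, if_pos (h1.1 h)]
  · rw [if_neg h, if_neg (fun h' => h (h1.2 h'))]

theorem crk_flip {a b : ℕ} (ha : a ≤ N) (hb : b ≤ N) (A : MM N) :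
    crk (N - b) (N - a) (Helper8.UT.flip A) = crk a b A := by
  unfold crk
  rw [cblk_flip ha hb, rank_flip]

/-- the corner of the system `[s, N)` -/
theorem trk_le_crk_mid {s a b : ℕ} (hs : s ≤ N) (A : MM N) :
    trk s (s + a) (s + b) A ≤ crk a b (mid s (N - s) (by omega) A) := by
  unfold trk crk
  refine rank_ext _ _ (fun i => if h : s ≤ i.val then some ⟨i.val - s, by omega⟩ else none)
    (fun i => if h : s ≤ i.val then some ⟨i.val - s, by omega⟩ else none) ?_
  intro i j
  unfold tblk
  by_cases hi : s ≤ i.val <;> by_cases hj : s ≤ j.val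
  · rw [dif_pos hi, dif_pos hj]
    simp only [Option.elim]
    unfold cblk mid
    have e1 : (⟨s + (i.val - s), by omega⟩ : Fin N) = i := by
      apply Fin.ext
      change s + (i.val - s) = i.val
      omega
    have e2 : (⟨s + (j.val - s), by omega⟩ : Fin N) = j := by
      apply Fin.ext
      change s + (j.val - s) = j.val
      omega
    simp only [e1, e2]
    by_cases h : (s ≤ i.val ∧ i.val < s + a) ∧ s + b ≤ j.val
    · rw [if_pos h, if_pos]
      constructor <;> omega
    · rw [if_neg h, if_neg]
      rintro ⟨h1, h2⟩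
      apply h
      refine ⟨⟨hi, ?_⟩, ?_⟩ <;> omega
  · rw [dif_pos hi, dif_neg hj, if_neg]
    · rfl
    · rintro ⟨h1, h2⟩
      omega
  · rw [dif_neg hi, if_neg]
    · rfl
    · rintro ⟨h1, h2⟩
      omega
  · rw [dif_neg hi, if_neg]
    · rfl
    · rintro ⟨h1, h2⟩
      omega

/-- the corner of the window `[s, s + n)` -/
theorem trk_flip_le {s n a b : ℕ} (h : s + n ≤ N) (hn : b ≤ n) (hab : a ≤ b) (A : MM N) :
    trk (N - s - n) (N - s - b) (N - s - a) (Helper8.UT.flip (mid s (N - s) (by omega) A)) ≤
      crk a b (mid s n h A) := by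
  unfold trk crk
  rw [← Matrix.rank_transpose (cblk a b (mid s n h A))]
  refine rank_ext _ _ (fun i => if h : i.rev.val < n then some ⟨i.rev.val, h⟩ else none)
    (fun i => if h : i.rev.val < n then some ⟨i.rev.val, h⟩ else none) ?_
  intro i j
  have hi0 := i.isLt
  have hj0 := j.isLt
  have hri := Fin.val_rev i
  have hrj := Fin.val_rev j
  unfold tblk
  by_cases hi : i.rev.val < n <;> by_cases hj : j.rev.val < n
  · rw [dif_pos hi, dif_pos hj]
    simp only [Option.elim]
    rw [Matrix.transpose_apply]
    unfold cblk Helper8.UT.flip mid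
    by_cases h1 : (N - s - n ≤ i.val ∧ i.val < N - s - b) ∧ N - s - a ≤ j.val
    · rw [if_pos h1, if_pos]
      constructor
      · change j.rev.val < a
        omega
      · change b ≤ i.rev.val
        omega
    · rw [if_neg h1, if_neg]
      rintro ⟨h2, h3⟩
      apply h1
      change j.rev.val < a at h2
      change b ≤ i.rev.val at h3
      refine ⟨⟨?_, ?_⟩, ?_⟩ <;> omega
  · rw [dif_pos hi, dif_neg hj, if_neg]
    · rfl
    · rintro ⟨h1, h2⟩
      omega
  · rw [dif_neg hi, if_neg]
    · rfl
    · rintro ⟨h1, h2⟩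
      omega
  · rw [dif_neg hi, if_neg]
    · rfl
    · rintro ⟨h1, h2⟩
      omega

open Classical in
/-- closed right side -/
theorem closed_right_aux {t : ℝ} (ht : 0 ≤ t) {s n : ℕ} (h : s + n ≤ N) {a b : ℕ} (hab : a ≤ b)
    (hbn : b ≤ n) (m : ℕ) :
    EE N t (fun A => if crk a b (mid s n h A) < n - b ∧
      crk a b (mid s n h A) + m ≤ crk a b (mid s (N - s) (by omega) A) then (1 : ℝ) else 0) ≤
      ((n - b : ℕ) : ℝ) / 2 ^ m := by
  have h1 := closed_top (N := N - s) ht (s := N - s - n) (u := N - s - b) (c := N - s - a)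
    (by omega) (by omega) (by omega) m
  have h2 : N - s - b - (N - s - n) = n - b := by omega
  have h0 : s + (N - s) ≤ N := by omega
  rw [h2, ← EE_flip, ← EE_mid s (N - s) h0] at h1
  refine le_trans ?_ h1
  refine EE_mono ht fun A _ => ?_
  by_cases h3 : crk a b (mid s n h A) < n - b ∧
      crk a b (mid s n h A) + m ≤ crk a b (mid s (N - s) (by omega) A)
  · have h4 := trk_flip_le h hbn hab A
    have h5 := crk_flip (N := N - s) (a := a) (b := b) (by omega) (by omega)
      (mid s (N - s) (by omega) A)
    rw [if_pos h3, if_pos]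
    rw [h5]
    exact ⟨lt_of_le_of_lt h4 h3.1, (Nat.add_le_add_right h4 m).trans h3.2⟩
  · rw [if_neg h3]
    split_ifs <;> norm_num

open Classical in
/-- closed top and closed right side -/
theorem closed_right {t : ℝ} (ht : 0 ≤ t) {s n : ℕ} (h : s + n ≤ N) {a b : ℕ} (hab : a ≤ b)
    (hbn : b ≤ n) (m : ℕ) :
    EE N t (fun A => if crk a b (mid s n h A) + 2 * m < min (min a (n - b)) (crk (s + a) (s + b) A)
      then (1 : ℝ) else 0) ≤ (n : ℝ) / 2 ^ m := by
  have h1 := closed_top (N := N) ht (s := s) (u := s + a) (c := s + b) (by omega) (by omega)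
    (by omega) m
  have h2 := closed_right_aux ht h hab hbn m
  have e : ∀ f g : MM N → ℝ, EE N t f + EE N t g = EE N t (fun A => f A + g A) := by
    intro f g
    unfold EE
    rw [Sg_add_apply]
  have h3 : ((s + a - s : ℕ) : ℝ) / 2 ^ m + ((n - b : ℕ) : ℝ) / 2 ^ m ≤ (n : ℝ) / 2 ^ m := by
    rw [← add_div]
    gcongr
    have : s + a - s + (n - b) ≤ n := by omega
    exact_mod_cast this
  refine le_trans ?_ h3
  refine le_trans ?_ (add_le_add h1 h2)
  rw [e]
  refine EE_mono ht fun A _ => ?_
  have h4 := trk_le_crk_mid (s := s) (a := a) (b := b) (by omega) A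
  by_cases h5 : crk a b (mid s n h A) + 2 * m < min (min a (n - b)) (crk (s + a) (s + b) A)
  · rw [if_pos h5]
    rw [lt_min_iff, lt_min_iff] at h5
    by_cases h6 : trk s (s + a) (s + b) A < s + a - s ∧
        trk s (s + a) (s + b) A + m ≤ crk (s + a) (s + b) A
    · rw [if_pos h6]
      split_ifs <;> norm_num
    · rw [if_neg h6, zero_add, if_pos]
      refine ⟨by omega, ?_⟩
      rw [not_and_or, not_lt, not_le] at h6
      rcases h6 with h6 | h6
      · omega
      · omega
  · rw [if_neg h5]
    split_ifs <;> norm_num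

open Classical in
/-- the form used for the window: from the open system to the closed one -/
theorem window_low {t : ℝ} (ht : 0 ≤ t) {s n : ℕ} (h : s + n ≤ N) {a b w : ℕ} (hab : a ≤ b)
    (hbn : b ≤ n) (hw : w ≤ min a (n - b)) (m : ℕ) :
    EE n t (fun M => if crk a b M + 2 * m < w then (1 : ℝ) else 0) ≤
      EE N t (fun A => if crk (s + a) (s + b) A < w then (1 : ℝ) else 0) + (n : ℝ) / 2 ^ m := by
  have h1 := closed_right ht h hab hbn m
  refine le_trans ?_ (add_le_add le_rfl h1)
  have e : ∀ f g : MM N → ℝ, EE N t f + EE N t g = EE N t (fun A => f A + g A) := by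
    intro f g
    unfold EE
    rw [Sg_add_apply]
  rw [e, ← EE_mid s n h]
  refine EE_mono ht fun A _ => ?_
  by_cases h2 : crk a b (mid s n h A) + 2 * m < w
  · rw [if_pos h2]
    by_cases h3 : crk (s + a) (s + b) A < w
    · rw [if_pos h3]
      split_ifs <;> norm_num
    · rw [if_neg h3, zero_add, if_pos]
      rw [lt_min_iff]
      constructor
      · omega
      · omega
  · rw [if_neg h2]
    split_ifs <;> norm_num

end Pool.Agent.CutFull
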