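import Pool.Agent.CutFull.Defs

/-!
Full cutoff, conditional part, row A4 (closed top): the rank of the rows in `[s,u)` on the columns
from `c` on is at least `min (u - s) (rank of all rows before u - m)` off an event of probability
`(u - s) / 2 ^ m`.
-/

set_option autoImplicit false
set_option linter.unusedSectionVars false

namespace Pool.Agent.CutFull

open Finset Matrix Pool.Agent.Helper8.UT

variable {N : ℕ}

/-- the block with the rows in `[s,u)` and the columns from `c` on -/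
def tblk (s u c : ℕ) (A : MM N) : MM N :=
  fun i j => if (s ≤ i.val ∧ i.val < u) ∧ c ≤ j.val then A i j else 0

/-- its rank -/
noncomputable def trk (s u c : ℕ) (A : MM N) : ℕ := (tblk s u c A).rank

theorem tblk_zero (u c : ℕ) (A : MM N) : tblk 0 u c A = cblk u c A := by
  funext i j
  unfold tblk cblk
  simp

theorem trk_zero (u c : ℕ) (A : MM N) : trk 0 u c A = crk u c A := by
  unfold trk crk
  rw [tblk_zero]

open Classical in
/-- vectors supported from `c` on and killed by the rows in `[s,u)` -/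
noncomputable def KT (s u c : ℕ) (A : MM N) : Finset (VV N) :=
  (SI N c N).filter fun ψ => ∀ m, s ≤ m → m < u → rowN A m ⬝ᵥ ψ = 0

theorem mem_KT {s u c : ℕ} {A : MM N} {ψ : VV N} :
    ψ ∈ KT s u c A ↔ suppIn ψ c N ∧ ∀ m, s ≤ m → m < u → rowN A m ⬝ᵥ ψ = 0 := by
  unfold KT
  simp only [Finset.mem_filter, mem_SI]

theorem KT_sub0 (s u c : ℕ) (A : MM N) : Sub0 (KT s u c A) := by
  refine ⟨?_, ?_⟩
  · rw [mem_KT]
    refine ⟨mem_SI.1 (SI_sub0 c N).1, fun m _ _ => dotProduct_zero _⟩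
  · intro x hx y hy
    rw [mem_KT] at *
    refine ⟨mem_SI.1 ((SI_sub0 c N).2 x (mem_SI.2 hx.1) y (mem_SI.2 hy.1)), fun m h1 h2 => ?_⟩
    rw [dotProduct_add, hx.2 m h1 h2, hy.2 m h1 h2, add_zero]

theorem tblk_mulVec_eq_zero_iff {s u c : ℕ} (A : MM N) {ψ : VV N} (hψ : suppIn ψ c N) :
    tblk s u c A *ᵥ ψ = 0 ↔ ∀ m, s ≤ m → m < u → rowN A m ⬝ᵥ ψ = 0 := by
  have key : ∀ i : Fin N, s ≤ i.val → i.val < u → (tblk s u c A *ᵥ ψ) i = A i ⬝ᵥ ψ := by
    intro i hs hi
    unfold Matrix.mulVec dotProduct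
    refine Finset.sum_congr rfl fun j _ => ?_
    unfold tblk
    beta_reduce
    by_cases hj : c ≤ j.val
    · rw [if_pos (And.intro (And.intro hs hi) hj)]
    · rw [if_neg (fun h : (s ≤ i.val ∧ i.val < u) ∧ c ≤ j.val => hj h.2)]
      have : ψ j = 0 := by
        by_contra hc
        exact hj (hψ j hc).1
      rw [this, mul_zero, mul_zero]
  constructor
  · intro h m hs hm
    by_cases hmN : m < N
    · have h1 := key ⟨m, hmN⟩ hs hm
      rw [h] at h1
      have h2 : rowN A m = A ⟨m, hmN⟩ := rowN_fin A ⟨m, hmN⟩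
      rw [h2, ← h1]
      rfl
    · have : rowN A m = 0 := by
        funext b
        simp [rowN, hmN]
      rw [this, zero_dotProduct]
  · intro h
    funext i
    by_cases hi : s ≤ i.val ∧ i.val < u
    · rw [key i hi.1 hi.2, ← rowN_fin A i, h _ hi.1 hi.2]
      rfl
    · unfold Matrix.mulVec dotProduct
      rw [Finset.sum_eq_zero]
      · rfl
      · intro j _
        unfold tblk
        beta_reduce
        rw [if_neg (fun h' : (s ≤ i.val ∧ i.val < u) ∧ c ≤ j.val => hi h'.1), zero_mul]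

open Classical in
theorem KT_eq {s u c : ℕ} (A : MM N) :
    KT s u c A = (SI N c N).filter fun ψ => tblk s u c A *ᵥ ψ = 0 := by
  unfold KT
  ext ψ
  simp only [Finset.mem_filter]
  constructor
  · rintro ⟨h1, h2⟩
    exact ⟨h1, (tblk_mulVec_eq_zero_iff A (mem_SI.1 h1)).2 h2⟩
  · rintro ⟨h1, h2⟩
    exact ⟨h1, (tblk_mulVec_eq_zero_iff A (mem_SI.1 h1)).1 h2⟩

/-- the number of vectors killed by the block -/
theorem KT_card {s u c : ℕ} (hc : c ≤ N) (A : MM N) :
    (KT s u c A).card * 2 ^ trk s u c A = 2 ^ (N - c) := by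
  rw [← card_SI hc le_rfl, KT_eq]
  refine le_antisymm ?_ (ker_lower _ _ (SI_sub0 c N))
  refine ker_upper _ _ (SI_sub0 c N) ?_
  intro ψ
  refine ⟨fun j => if c ≤ j.val then ψ j else 0, ?_, ?_⟩
  · rw [mem_SI]
    intro j hj
    refine ⟨?_, j.isLt⟩
    by_contra hc
    apply hj
    beta_reduce
    rw [if_neg hc]
  · funext i
    unfold Matrix.mulVec dotProduct
    refine Finset.sum_congr rfl fun j _ => ?_
    unfold tblk
    beta_reduce
    by_cases hj : c ≤ j.val
    · rw [if_pos hj]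
    · rw [if_neg (fun h : (s ≤ i.val ∧ i.val < u) ∧ c ≤ j.val => hj h.2), zero_mul, zero_mul]

theorem KT_pos (s u c : ℕ) (A : MM N) : 0 < (KT s u c A).card :=
  Finset.card_pos.2 ⟨0, (KT_sub0 s u c A).1⟩

theorem trk_self (u c : ℕ) (hc : c ≤ N) (A : MM N) : trk u u c A = 0 := by
  have h1 := KT_card (s := u) (u := u) hc A
  have h2 : KT u u c A = SI N c N := by
    ext ψ
    rw [mem_KT, mem_SI]
    constructor
    · exact fun h => h.1
    · exact fun h => ⟨h, fun m h1 h2 => absurd h2 (not_lt.2 h1)⟩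
  rw [h2, card_SI hc le_rfl] at h1
  by_contra h3
  have h4 : 2 ≤ 2 ^ trk u u c A := by
    calc 2 = 2 ^ 1 := (pow_one 2).symm
      _ ≤ 2 ^ trk u u c A := Nat.pow_le_pow_right (by norm_num) (Nat.one_le_iff_ne_zero.2 h3)
  have h5 : 0 < 2 ^ (N - c) := by positivity
  nlinarith

/-- more rows, more rank -/
theorem trk_anti {s s' u c : ℕ} (h : s ≤ s') (hc : c ≤ N) (A : MM N) :
    trk s' u c A ≤ trk s u c A := by
  have h1 := KT_card (s := s) (u := u) hc A
  have h2 := KT_card (s := s') (u := u) hc A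
  have h3 : (KT s u c A).card ≤ (KT s' u c A).card := by
    refine Finset.card_le_card fun ψ hψ => ?_
    rw [mem_KT] at *
    exact ⟨hψ.1, fun m hm => hψ.2 m (h.trans hm)⟩
  by_contra h4
  rw [not_le] at h4
  have h5 : 2 ^ trk s u c A < 2 ^ trk s' u c A := Nat.pow_lt_pow_right (by norm_num) h4
  have h6 := KT_pos s' u c A
  have h7 : (KT s u c A).card * 2 ^ trk s u c A < (KT s' u c A).card * 2 ^ trk s' u c A := by
    calc (KT s u c A).card * 2 ^ trk s u c A ≤ (KT s' u c A).card * 2 ^ trk s u c A :=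
          Nat.mul_le_mul h3 le_rfl
      _ < (KT s' u c A).card * 2 ^ trk s' u c A := Nat.mul_lt_mul_of_pos_left h5 h6
  omega

/-- a row which does not kill the kernel of the next rows raises the rank -/
theorem trk_raise {k u c : ℕ} (hc : c ≤ N) (A : MM N)
    (h : ¬ ∀ ψ ∈ KT (k + 1) u c A, rowN A k ⬝ᵥ ψ = 0) (hk : k < u) :
    trk (k + 1) u c A + 1 ≤ trk k u c A := by
  classical
  push Not at h
  obtain ⟨ψ0, h0, h1⟩ := h
  have h2 := le_count (fun ψ : VV N => rowN A k ⬝ᵥ ψ) (fun x y => dotProduct_add _ _ _)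
    (KT (k + 1) u c A) (KT_sub0 _ _ _ _)
  have h3 : ((KT (k + 1) u c A).filter fun ψ => rowN A k ⬝ᵥ ψ = 0) = KT k u c A := by
    ext ψ
    rw [Finset.mem_filter, mem_KT, mem_KT]
    constructor
    · rintro ⟨⟨h4, h5⟩, h6⟩
      refine ⟨h4, fun m hm1 hm2 => ?_⟩
      rcases Nat.eq_or_lt_of_le hm1 with h7 | h7
      · rw [← h7]; exact h6
      · exact h5 m h7 hm2
    · rintro ⟨h4, h5⟩
      exact ⟨⟨h4, fun m hm1 hm2 => h5 m (by omega) hm2⟩, h5 k le_rfl hk⟩
  have h4 : 2 ≤ ((KT (k + 1) u c A).image fun ψ : VV N => rowN A k ⬝ᵥ ψ).card := by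
    have h5 : ({0, 1} : Finset (ZMod 2)) ⊆ (KT (k + 1) u c A).image fun ψ : VV N => rowN A k ⬝ᵥ ψ := by
      intro x hx
      rw [Finset.mem_insert, Finset.mem_singleton] at hx
      rcases hx with rfl | rfl
      · exact Finset.mem_image.2 ⟨0, (KT_sub0 _ _ _ _).1, dotProduct_zero _⟩
      · exact Finset.mem_image.2 ⟨ψ0, h0, zmod2_ne _ h1⟩
    exact (le_of_eq (by decide)).trans (Finset.card_le_card h5)
  rw [h3] at h2
  have h5 := KT_card (s := k) (u := u) hc A
  have h6 := KT_card (s := k + 1) (u := u) hc A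
  have h7 : (KT k u c A).card * 2 ≤ (KT (k + 1) u c A).card := (Nat.mul_le_mul le_rfl h4).trans h2
  have h8 := KT_pos k u c A
  by_contra h9
  have h10 : trk k u c A ≤ trk (k + 1) u c A := by omega
  have h11 : 2 ^ trk k u c A ≤ 2 ^ trk (k + 1) u c A := Nat.pow_le_pow_right (by norm_num) h10
  have h12 : (KT k u c A).card * 2 * 2 ^ trk k u c A ≤ 2 ^ (N - c) := by
    rw [← h6]
    exact Nat.mul_le_mul h7 h11
  have h13 : 0 < (KT k u c A).card * 2 ^ trk k u c A := by positivity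
  nlinarith

/-- if all rows raise the rank then it is full -/
theorem trk_full {s u c : ℕ} (hc : c ≤ N) (A : MM N)
    (h : ∀ k, s ≤ k → k < u → ¬ ∀ ψ ∈ KT (k + 1) u c A, rowN A k ⬝ᵥ ψ = 0) (hsu : s ≤ u) :
    u - s ≤ trk s u c A := by
  have key : ∀ j, j ≤ u - s → j ≤ trk (u - j) u c A := by
    intro j
    induction j with
    | zero => intro _; exact Nat.zero_le _
    | succ j ih =>
      intro hj
      have h1 := ih (by omega)
      have h2 := trk_raise (k := u - (j + 1)) hc A (h _ (by omega) (by omega)) (by omega)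
      have h3 : u - (j + 1) + 1 = u - j := by omega
      rw [h3] at h2
      omega
  have h1 := key (u - s) le_rfl
  have h2 : u - (u - s) = s := by omega
  rw [h2] at h1
  exact h1

open Classical in
/-- one row -/
theorem top_step {t : ℝ} (ht : 0 ≤ t) {k u c : ℕ} (hku : k < u) (huc : u ≤ c) (hc : c ≤ N)
    (m : ℕ) :
    EE N t (fun A => if (∀ ψ ∈ KT (k + 1) u c A, rowN A k ⬝ᵥ ψ = 0) ∧
      trk (k + 1) u c A + m ≤ crk u c A then (1 : ℝ) else 0) ≤ 1 / 2 ^ m := by
  have hkN : k < N := by omega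
  set G : AS N → ℝ := fun s => if (KT (k + 1) u c s.1 ∩ s.2 ⟨k, hkN⟩).card * 2 ^ m ≤
    (KT (k + 1) u c s.1).card then 1 else 0 with hG
  have hdep : ∀ s s' : AS N, Rel k s s' → KT (k + 1) u c s.1 = KT (k + 1) u c s'.1 := by
    intro s s' hs
    ext ψ
    rw [mem_KT, mem_KT]
    constructor
    · rintro ⟨h1, h2⟩
      exact ⟨h1, fun m hm1 hm2 => by rw [← hs.1 m hm1]; exact h2 m hm1 hm2⟩
    · rintro ⟨h1, h2⟩
      exact ⟨h1, fun m hm1 hm2 => by rw [hs.1 m hm1]; exact h2 m hm1 hm2⟩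
  have h1 := EA_fourier ht (⟨k, hkN⟩ : Fin N) (fun s => KT (k + 1) u c s.1) hdep
    (fun s => KT_sub0 (k + 1) u c s.1) (fun s ψ hψ => by
      rw [mem_KT] at hψ
      by_contra hc
      have := (hψ.1 _ hc).1
      simp only at this
      omega) 0 G (by
      intro s s' hs
      rw [hG]
      beta_reduce
      rw [hdep s s' hs, hs.2 ⟨k, hkN⟩ le_rfl]) (by
      intro s
      rw [hG]
      beta_reduce
      split_ifs <;> norm_num)
  rw [← EA_proj]
  have h2 : EA N t (fun s => if (∀ ψ ∈ KT (k + 1) u c s.1, rowN s.1 k ⬝ᵥ ψ = 0) ∧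
      trk (k + 1) u c s.1 + m ≤ crk u c s.1 then (1 : ℝ) else 0) ≤
      EA N t (fun s => if (∀ ψ ∈ KT (k + 1) u c s.1, (rowN s.1 (⟨k, hkN⟩ : Fin N).val + 0) ⬝ᵥ ψ = 0)
        then G s else 0) := by
    refine EA_mono_Inv ht fun s hs => ?_
    by_cases h : (∀ ψ ∈ KT (k + 1) u c s.1, rowN s.1 k ⬝ᵥ ψ = 0) ∧
        trk (k + 1) u c s.1 + m ≤ crk u c s.1
    · rw [if_pos h, if_pos (fun ψ hψ => by rw [add_zero]; exact h.1 ψ hψ), hG]
      beta_reduce
      rw [if_pos]
      have h3 : KT (k + 1) u c s.1 ∩ s.2 ⟨k, hkN⟩ ⊆ KT 0 u c s.1 := by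
        intro ψ hψ
        rw [Finset.mem_inter, mem_KT] at hψ
        rw [mem_KT]
        refine ⟨hψ.1.1, fun j _ hj => ?_⟩
        by_cases hjk : j ≤ k
        · exact (hs.2 ⟨k, hkN⟩ ψ hψ.2 (fun i hi => by
            rw [Fin.lt_def]
            have := (hψ.1.1 i hi).1
            simp only
            omega) ⟨j, by omega⟩ (by rw [Fin.le_def]; exact hjk)).1
        · exact hψ.1.2 j (by omega) hj
      have h4 := Finset.card_le_card h3
      have h5 := KT_card (s := 0) (u := u) hc s.1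
      have h6 := KT_card (s := k + 1) (u := u) hc s.1
      rw [trk_zero] at h5
      have h7 : (KT (k + 1) u c s.1 ∩ s.2 ⟨k, hkN⟩).card * 2 ^ m * 2 ^ trk (k + 1) u c s.1 ≤
          (KT (k + 1) u c s.1).card * 2 ^ trk (k + 1) u c s.1 := by
        rw [h6, ← h5, mul_assoc, ← pow_add, add_comm m]
        exact Nat.mul_le_mul h4 (Nat.pow_le_pow_right (by norm_num) h.2)
      exact Nat.le_of_mul_le_mul_right h7 (by positivity)
    · rw [if_neg h]
      split_ifs
      · rw [hG]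
        beta_reduce
        split_ifs <;> norm_num
      · exact le_rfl
  refine h2.trans (h1.trans ?_)
  refine EA_le_const ht fun s => ?_
  rw [hG]
  beta_reduce
  have h5 : (0 : ℝ) < (KT (k + 1) u c s.1).card := by exact_mod_cast KT_pos (k + 1) u c s.1
  split_ifs with h
  · rw [mul_one, div_le_div_iff₀ h5 (by positivity), one_mul]
    exact_mod_cast h
  · rw [mul_zero]
    positivity

open Classical in
/-- closed top -/
theorem closed_top {t : ℝ} (ht : 0 ≤ t) {s u c : ℕ} (hsu : s ≤ u) (huc : u ≤ c) (hc : c ≤ N)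
    (m : ℕ) :
    EE N t (fun A => if trk s u c A < u - s ∧ trk s u c A + m ≤ crk u c A then (1 : ℝ) else 0) ≤
      ((u - s : ℕ) : ℝ) / 2 ^ m := by
  have h1 := EE_union ht (Finset.Ico s u)
    (fun A : MM N => trk s u c A < u - s ∧ trk s u c A + m ≤ crk u c A)
    (fun k A => (∀ ψ ∈ KT (k + 1) u c A, rowN A k ⬝ᵥ ψ = 0) ∧
      trk (k + 1) u c A + m ≤ crk u c A) (by
    rintro A _ ⟨h1, h2⟩
    by_contra h3
    push Not at h3
    have h4 := trk_full (s := s) (u := u) hc A (fun k hk1 hk2 h5 => by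
      have h6 := h3 k (Finset.mem_Ico.2 ⟨hk1, hk2⟩) h5
      have h7 := trk_anti (s := s) (s' := k + 1) (u := u) (by omega) hc A
      omega) hsu
    omega)
  have h2 : ∀ k ∈ Finset.Ico s u, EE N t (fun A => if (∀ ψ ∈ KT (k + 1) u c A, rowN A k ⬝ᵥ ψ = 0) ∧
      trk (k + 1) u c A + m ≤ crk u c A then (1 : ℝ) else 0) ≤ 1 / 2 ^ m := fun k hk =>
    top_step ht (Finset.mem_Ico.1 hk).2 huc hc m
  refine h1.trans ((Finset.sum_le_sum h2).trans (le_of_eq ?_))
  rw [Finset.sum_const, Nat.card_Ico, nsmul_eq_mul, mul_one_div]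

end Pool.Agent.CutFull
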