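import Pool.Agent.Helper8.UT.AsymHigh

/-!
Full cutoff, conditional part: shared definitions.

`MM N`, `EE N t`, `rk a`, `JJ` are those of `Pool.Agent.Helper8.UT` (upper unitriangular matrices, the
step `i` adds the row `i + 1` to the row `i`).
-/

set_option autoImplicit false

namespace Pool.Agent.CutFull

open Pool.Agent.Helper8.UT

variable {N : ℕ}

/-- the corner with the rows `i < a` and the columns `j` with `b ≤ j` -/
def cblk (a b : ℕ) (A : MM N) : MM N := fun i j => if i.val < a ∧ b ≤ j.val then A i j else 0

/-- rank of the corner -/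
noncomputable def crk (a b : ℕ) (A : MM N) : ℕ := (cblk a b A).rank

/-- all corners above the diagonal have nearly the generic rank -/
def NearGen (e : ℝ) (A : MM N) : Prop :=
  ∀ a b : ℕ, a ≤ b → b ≤ N → min (a : ℝ) ((N : ℝ) - b) - e * N ≤ (crk a b A : ℝ)

theorem crk_diag (a : ℕ) (A : MM N) : crk a a A = rk a A := rfl

end Pool.Agent.CutFull
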