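import Mathlib
import Pool.Agent.UTM.Lower
import Pool.Agent.Helper8.UT.AsymHigh
import Pool.Agent.Helper8.UT.Frozen
import Pool.Agent.Helper8.UT.AsymLow
import Pool.Agent.CutSeq.TForm
import Pool.Agent.CutSeq.Lim

/-!
The walk on unitriangular matrices over the field with two elements: if the `ε₀`-mixing time divided
by `n` converges for one `ε₀`, then there is cutoff along all sizes.
-/

set_option autoImplicit false
open Filter Topology

namespace Pool.Agent.CutFull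

/-- If `T n ε₀ / n` converges for one `ε₀`, then there is cutoff (along all sizes). -/
theorem cutoff_of_lim :
    ∀ (K : (n : ℕ) → Matrix (Matrix (Fin n) (Fin n) (ZMod 2)) (Matrix (Fin n) (Fin n) (ZMod 2)) ℝ),
      (∀ (n : ℕ) (A B : Matrix (Fin n) (Fin n) (ZMod 2)),
        K n A B = (1 / 2 : ℝ) * (if B = A then 1 else 0)
          + (1 / (2 * ((n : ℝ) - 1))) *
            ∑ i : Fin n, ∑ j : Fin n,
              (if j.val = i.val + 1 ∧ B = A.updateRow i (A i + A j) then (1 : ℝ) else 0)) →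
    ∀ (P : (n : ℕ) → ℝ → Matrix (Fin n) (Fin n) (ZMod 2) → ℝ),
      (∀ (n : ℕ) (t : ℝ) (B : Matrix (Fin n) (Fin n) (ZMod 2)),
        P n t B = ∑' k : ℕ, Real.exp (-(((n : ℝ) - 1) * t)) * (((n : ℝ) - 1) * t) ^ k
              / (k.factorial : ℝ) * ((K n) ^ k) 1 B) →
    ∀ (d : ℕ → ℝ → ℝ),
      (∀ (n : ℕ) (t : ℝ),
        d n t = (1 / 2 : ℝ) * ∑ B : Matrix (Fin n) (Fin n) (ZMod 2),
          |P n t B - (if (∀ a : Fin n, B a a = 1) ∧ (∀ a b : Fin n, b < a → B a b = 0)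
                then (1 / 2 : ℝ) ^ (n * (n - 1) / 2) else 0)|) →
    ∀ (T : ℕ → ℝ → ℝ),
      (∀ (n : ℕ) (ε : ℝ), T n ε = sInf {t : ℝ | 0 ≤ t ∧ d n t ≤ ε}) →
    ∀ ε₀ L : ℝ, 0 < ε₀ → ε₀ < 1 → Tendsto (fun n : ℕ => T n ε₀ / n) atTop (𝓝 L) →
      ∀ ε : ℝ, 0 < ε → ε < 1 → Tendsto (fun n : ℕ => T n ε / T n (1 - ε)) atTop (𝓝 1) := by
  intro K hK P hP d hd T hT
  have hK' : Pool.Agent.UTM.IsKernel K := hK
  -- the distance is `dd`
  have hD : ∀ n, 2 ≤ n → ∀ t, 0 ≤ t → d n t = Pool.Agent.CutSeq.dd n t := by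
    intro n hn t ht
    rw [hd n t]
    exact Pool.Agent.CutSeq.frozen_dd K hK P hP n hn t ht
  -- `d 0 0 = 0` and `d 1 0 = 0`
  have hsmall : ∀ n : ℕ, n < 2 → d n 0 = 0 := by
    intro n hn
    rw [hd n 0]
    have hP0 : ∀ B : Matrix (Fin n) (Fin n) (ZMod 2), P n 0 B = if (1 : Matrix (Fin n) (Fin n) (ZMod 2)) = B then 1 else 0 := by
      intro B
      rw [hP n 0 B, tsum_eq_single 0]
      · simp [Matrix.one_apply]
      · intro k hk
        simp [hk]
    have h1 : ∀ B : Matrix (Fin n) (Fin n) (ZMod 2),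
        |P n 0 B - (if (∀ a : Fin n, B a a = 1) ∧ (∀ a b : Fin n, b < a → B a b = 0)
                then (1 / 2 : ℝ) ^ (n * (n - 1) / 2) else 0)| = 0 := by
      intro B
      rw [hP0 B, abs_eq_zero]
      have hpow : (1 / 2 : ℝ) ^ (n * (n - 1) / 2) = 1 := by
        interval_cases n <;> norm_num
      rw [hpow]
      have hiff : (1 : Matrix (Fin n) (Fin n) (ZMod 2)) = B ↔
          ((∀ a : Fin n, B a a = 1) ∧ (∀ a b : Fin n, b < a → B a b = 0)) := by
        constructor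
        · intro h
          subst h
          refine ⟨fun a => Matrix.one_apply_eq a, fun a b hab => Matrix.one_apply_ne (ne_of_gt hab)⟩
        · rintro ⟨h2, _⟩
          ext a b
          have hab : a = b := by
            apply Fin.ext
            have := a.isLt
            have := b.isLt
            omega
          subst hab
          rw [Matrix.one_apply_eq, h2]
      by_cases h : (1 : Matrix (Fin n) (Fin n) (ZMod 2)) = B
      · rw [if_pos h, if_pos (hiff.mp h), sub_self]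
      · rw [if_neg h, if_neg (fun h3 => h (hiff.mpr h3)), sub_self]
    rw [Finset.sum_eq_zero fun B _ => h1 B, mul_zero]
  have hmono : ∀ ε : ℝ, 0 < ε → Monotone fun n => T n ε := fun ε hε =>
    Pool.Agent.CutSeq.T_mono d hD (hsmall 0 (by norm_num)) (hsmall 1 (by norm_num)) T hT ε hε
  -- nonempty sets
  have hne : ∀ n, 2 ≤ n → ∀ ε : ℝ, 0 < ε → ∃ t : ℝ, 0 ≤ t ∧ d n t ≤ ε := by
    intro n hn ε hε
    obtain ⟨t, ht0, ht⟩ := Pool.Agent.CutSeq.exists_dd_le n ε hε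
    exact ⟨t, ht0, by rw [hD n hn t ht0]; exact ht⟩
  -- lower bound by `7 n`
  have hlow7 : ∀ ε : ℝ, 0 < ε → ε < 1 → ∀ᶠ n : ℕ in atTop, 7 * (n : ℝ) ≤ T n ε := by
    intro ε hε hε1
    have hdist : ∀ n t, d n t = Pool.Agent.UTM.dist1 K n t := by
      intro n t
      rw [hd n t]
      unfold Pool.Agent.UTM.dist1
      congr 1
      apply Finset.sum_congr rfl
      intro B _
      rw [show P n t B = Pool.Agent.UTM.mu K n t B from hP n t B]
      by_cases hB : Pool.Agent.UTM.IsUni B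
      · rw [if_pos hB, if_pos (show (∀ a : Fin n, B a a = 1) ∧ (∀ a b : Fin n, b < a → B a b = 0) from hB)]
      · rw [if_neg hB, if_neg (show ¬ ((∀ a : Fin n, B a a = 1) ∧ (∀ a b : Fin n, b < a → B a b = 0)) from hB)]
    filter_upwards [Pool.Agent.UTM.lower_bound hK' (1 - ε) (by linarith), eventually_ge_atTop 2]
      with n hn hn2
    rw [hT]
    apply le_csInf (hne n hn2 ε hε)
    rintro t ⟨ht0, ht⟩
    by_contra hcon
    have h1 := hn t ht0 (not_le.1 hcon).le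
    rw [← hdist] at h1
    linarith
  -- the bounds by `J`
  have hdTV : ∀ n : ℕ, 2 ≤ n → ∀ t, d n t = Pool.Agent.Helper8.UT.TV n t := by
    intro n hn t
    rw [hd n t, ← Pool.Agent.Helper8.UT.frozen_d hn (K n) (hK n) t]
    simp only [hP n t]
  have hJ := Pool.Agent.Helper8.UT.JJ_pos
  set J : ℝ := Pool.Agent.Helper8.UT.JJ with hJdef
  have hJup : ∀ ε : ℝ, 0 < ε → ∀ δ : ℝ, 0 < δ → ∀ᶠ n : ℕ in atTop,
      T n ε ≤ (1 + δ) * (1 / J) * (n : ℝ) := by
    intro ε hε δ hδ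
    have hlim : ∀ᶠ n : ℕ in atTop, 1 ≤ δ / 2 / J * (n : ℝ) :=
      (Tendsto.const_mul_atTop (by positivity) tendsto_natCast_atTop_atTop).eventually_ge_atTop 1
    filter_upwards [Pool.Agent.Helper8.UT.TV_high ε (δ / 2) hε (by linarith), hlim,
      eventually_ge_atTop 2] with n h3 h4 hn2
    obtain ⟨t, ht0, ht1, ht⟩ := h3
    have hmem : t ∈ {t : ℝ | 0 ≤ t ∧ d n t ≤ ε} := ⟨ht0, by rw [hdTV n hn2]; exact ht⟩
    have hbdd : BddBelow {t : ℝ | 0 ≤ t ∧ d n t ≤ ε} := ⟨0, fun s hs => hs.1⟩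
    rw [hT]
    refine (csInf_le hbdd hmem).trans (ht1.trans ?_)
    have e : (1 + δ) * (1 / J) * (n : ℝ) = (1 + δ / 2) * n / J + δ / 2 / J * n := by ring
    rw [e]
    linarith
  -- Theorem B
  have hup1 : ∀ ε : ℝ, 0 < ε → ε < 1 → ∀ᶠ n : ℕ in atTop, T n ε ≤ 2 * (1 / J) * (n : ℝ) := by
    intro ε hε _
    filter_upwards [hJup ε hε 1 one_pos] with n hn
    have e : (1 + 1 : ℝ) * (1 / J) * n = 2 * (1 / J) * n := by ring
    linarith
  have hB : ∀ δ ε η : ℝ, 0 < δ → 0 < ε → 0 < η → η < 1 → ∀ᶠ N : ℕ in atTop,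
      ∃ n' : ℕ, (n' : ℝ) ≤ (1 + δ) * N ∧
        T N ε ≤ T n' (1 - η) + 16 / 3 * ((N : ℝ) - n') + δ * N := by
    intro δ ε η hδ hε hη hη1
    exact Pool.Agent.CutSeq.thmB_T d hD T hT (2 * (1 / J)) hup1 δ ε η hδ hε hη hη1
  intro ε₀ L h0 h2 hL ε hε hε1
  exact (Pool.Agent.CutSeq.limit_abs T hmono hlow7 hB ε₀ L h0 h2 hL ε hε hε1).2

end Pool.Agent.CutFull
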