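import Pool.Agent.CutFull.RowC
import Pool.Agent.CutFull.Lim77

/-!
Full cutoff, conditional part: the statement of the problem from the bound for the density.
-/

set_option autoImplicit false

namespace Pool.Agent.CutFull

open Filter Topology Pool.Agent.CutSeq

/-- If the density of `M(t)` at the times `(1 + δ) n / (2 J)` is rarely exponentially large in `n ^ 2`,
then there is cutoff (along all sizes), and the mixing times are asymptotic to `n / (2 J)`. -/
theorem full_of_soft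
    (hsoft : ∀ δ σ q : ℝ, 0 < δ → 0 < σ → 0 < q → ∀ᶠ n : ℕ in atTop,
      SoftLe n ((1 + δ) * n / (2 * Pool.Agent.Helper8.UT.JJ)) (Real.exp (σ * (n : ℝ) ^ 2)) q) :
    ∀ (K : (n : ℕ) → Matrix (Matrix (Fin n) (Fin n) (ZMod 2)) (Matrix (Fin n) (Fin n) (ZMod 2)) ℝ),
      (∀ (n : ℕ) (A B : Matrix (Fin n) (Fin n) (ZMod 2)),
        K n A B = (1 / 2 : ℝ) * (if B = A then 1 else 0)
          + (1 / (2 * ((n : ℝ) - 1))) *
            ∑ i : Fin n, ∑ j : Fin n,
              (if j.val = i.val + 1 ∧ B = A.updateRow i (A i + A j) then (1 : ℝ) else 0)) →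
    ∀ (d : ℕ → ℝ → ℝ),
      (∀ (n : ℕ) (t : ℝ),
        d n t = (1 / 2 : ℝ) * ∑ B : Matrix (Fin n) (Fin n) (ZMod 2),
          |(∑' k : ℕ, Real.exp (-(((n : ℝ) - 1) * t)) * (((n : ℝ) - 1) * t) ^ k
              / (k.factorial : ℝ) * ((K n) ^ k) 1 B)
            - (if (∀ a : Fin n, B a a = 1) ∧ (∀ a b : Fin n, b < a → B a b = 0)
                then (1 / 2 : ℝ) ^ (n * (n - 1) / 2) else 0)|) →
    ∀ (T : ℕ → ℝ → ℝ),
      (∀ (n : ℕ) (ε : ℝ), T n ε = sInf {t : ℝ | 0 ≤ t ∧ d n t ≤ ε}) →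
    ∀ ε : ℝ, 0 < ε → ε < 1 →
      Tendsto (fun n : ℕ => T n ε / T n (1 - ε)) atTop (𝓝 1) := by
  intro K hK d hd T hT
  have hK' : Pool.Agent.UTM.IsKernel K := hK
  set P : (n : ℕ) → ℝ → Matrix (Fin n) (Fin n) (ZMod 2) → ℝ := fun n t B =>
    ∑' k : ℕ, Real.exp (-(((n : ℝ) - 1) * t)) * (((n : ℝ) - 1) * t) ^ k
              / (k.factorial : ℝ) * ((K n) ^ k) 1 B with hPdef
  have hP : ∀ (n : ℕ) (t : ℝ) (B : Matrix (Fin n) (Fin n) (ZMod 2)),
        P n t B = ∑' k : ℕ, Real.exp (-(((n : ℝ) - 1) * t)) * (((n : ℝ) - 1) * t) ^ k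
              / (k.factorial : ℝ) * ((K n) ^ k) 1 B := fun _ _ _ => rfl
  have hd' : ∀ (n : ℕ) (t : ℝ),
        d n t = (1 / 2 : ℝ) * ∑ B : Matrix (Fin n) (Fin n) (ZMod 2),
          |P n t B - (if (∀ a : Fin n, B a a = 1) ∧ (∀ a b : Fin n, b < a → B a b = 0)
                then (1 / 2 : ℝ) ^ (n * (n - 1) / 2) else 0)| := hd
  -- the distance is `dd`
  have hD : ∀ n, 2 ≤ n → ∀ t, 0 ≤ t → d n t = dd n t := by
    intro n hn t ht
    rw [hd' n t]
    exact frozen_dd K hK P hP n hn t ht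
  have hne : ∀ n, 2 ≤ n → ∀ ε : ℝ, 0 < ε → ∃ t : ℝ, 0 ≤ t ∧ d n t ≤ ε := by
    intro n hn ε hε
    obtain ⟨t, ht0, ht⟩ := exists_dd_le n ε hε
    exact ⟨t, ht0, by rw [hD n hn t ht0]; exact ht⟩
  -- lower bound by `7 n`
  have hlow7 : ∀ᶠ n : ℕ in atTop, 7 * (n : ℝ) ≤ T n (1 / 2) := by
    have hdist : ∀ n t, d n t = Pool.Agent.UTM.dist1 K n t := by
      intro n t
      rw [hd' n t]
      unfold Pool.Agent.UTM.dist1
      congr 1
      apply Finset.sum_congr rfl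
      intro B _
      rw [show P n t B = Pool.Agent.UTM.mu K n t B from hP n t B]
      by_cases hB : Pool.Agent.UTM.IsUni B
      · rw [if_pos hB, if_pos (show (∀ a : Fin n, B a a = 1) ∧ (∀ a b : Fin n, b < a → B a b = 0) from hB)]
      · rw [if_neg hB, if_neg (show ¬ ((∀ a : Fin n, B a a = 1) ∧ (∀ a b : Fin n, b < a → B a b = 0)) from hB)]
    filter_upwards [Pool.Agent.UTM.lower_bound hK' (1 - 1 / 2) (by norm_num), eventually_ge_atTop 2]
      with n hn hn2
    rw [hT]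
    apply le_csInf (hne n hn2 (1 / 2) (by norm_num))
    rintro t ⟨ht0, ht⟩
    by_contra hcon
    have h1 := hn t ht0 (not_le.1 hcon).le
    rw [← hdist] at h1
    linarith
  have hdTV : ∀ n : ℕ, 2 ≤ n → ∀ t, d n t = Pool.Agent.Helper8.UT.TV n t := by
    intro n hn t
    rw [hd' n t, ← Pool.Agent.Helper8.UT.frozen_d hn (K n) (hK n) t]
  have hJ := Pool.Agent.Helper8.UT.JJ_pos
  set J : ℝ := Pool.Agent.Helper8.UT.JJ with hJdef
  have hJlow : ∀ δ : ℝ, 0 < δ → ∀ᶠ n : ℕ in atTop,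
      (1 - δ) * (1 / (2 * J)) * (n : ℝ) ≤ T n (1 / 2) := by
    intro δ hδ
    filter_upwards [Pool.Agent.Helper8.UT.TV_low (1 - 1 / 2) (min δ (1 / 2)) (by norm_num)
      (lt_min hδ (by norm_num)), eventually_ge_atTop 2] with n h1 hn2
    rw [hT]
    apply le_csInf (hne n hn2 (1 / 2) (by norm_num))
    rintro t ⟨ht0, ht⟩
    by_contra hcon
    have h5 : t ≤ (1 - min δ (1 / 2)) * n / (2 * J) := by
      refine (not_le.1 hcon).le.trans ?_
      have h6 : (1 - δ) * (n : ℝ) ≤ (1 - min δ (1 / 2)) * n :=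
        mul_le_mul_of_nonneg_right (by linarith [min_le_left δ (1 / 2)]) (Nat.cast_nonneg n)
      have h7 : (1 - δ) * (1 / (2 * J)) * (n : ℝ) = (1 - δ) * n / (2 * J) := by
        ring
      rw [h7]
      exact div_le_div_of_nonneg_right h6 (by positivity)
    have h8 := h1 t ht0 h5
    rw [← hdTV n hn2] at h8
    linarith
  -- upper bound
  have hup : ∀ δ : ℝ, 0 < δ → ∀ᶠ n : ℕ in atTop,
      T n (1 / 2) ≤ (1 + δ) * max (1 / (2 * J)) (16 / 3) * n := by
    intro δ hδ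
    filter_upwards [dd_upper J hJ hsoft (1 / 2) δ (by norm_num) hδ, eventually_ge_atTop 2] with n hn hn2
    have hm : (0 : ℝ) ≤ max (1 / (2 * J)) (16 / 3) := le_trans (by norm_num) (le_max_right _ _)
    rw [hT]
    refine csInf_le ⟨0, fun s hs => hs.1⟩ ⟨by positivity, ?_⟩
    rw [hD n hn2 _ (by positivity)]
    exact hn
  -- the maximum
  have hmax : 16 / 3 ≤ 1 / (2 * J) := by
    by_contra hcon
    rw [not_le] at hcon
    have hm : max (1 / (2 * J)) (16 / 3) = 16 / 3 := max_eq_right hcon.le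
    obtain ⟨n, ⟨h3, h4⟩, h5⟩ := ((hlow7.and (hup (1 / 16) (by norm_num))).and
      (eventually_ge_atTop 1)).exists
    rw [hm] at h4
    have h6 : (0 : ℝ) < n := by exact_mod_cast h5
    nlinarith
  have hpos : ∀ᶠ n : ℕ in atTop, (0 : ℝ) < n := tendsto_natCast_atTop_atTop.eventually_gt_atTop 0
  have hlim : Tendsto (fun n : ℕ => T n (1 / 2) / n) atTop (𝓝 (1 / (2 * J))) := by
    have hc : 0 < 1 / (2 * J) := by positivity
    rw [max_eq_left hmax] at hup
    refine tendsto_order.2 ⟨fun a ha => ?_, fun a ha => ?_⟩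
    · obtain ⟨δ, hδ, hδa⟩ : ∃ δ : ℝ, 0 < δ ∧ a < (1 - δ) * (1 / (2 * J)) := by
        refine ⟨(1 / (2 * J) - a) / (2 * (1 / (2 * J))), div_pos (by linarith) (by linarith), ?_⟩
        have e : (1 - (1 / (2 * J) - a) / (2 * (1 / (2 * J)))) * (1 / (2 * J))
            = 1 / (2 * J) - (1 / (2 * J) - a) / 2 := by
          generalize 1 / (2 * J) = c at hc
          field_simp
        rw [e]
        linarith
      filter_upwards [hJlow δ hδ, hpos] with n hn hn0
      rw [lt_div_iff₀ hn0]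
      nlinarith
    · obtain ⟨δ, hδ, hδa⟩ : ∃ δ : ℝ, 0 < δ ∧ (1 + δ) * (1 / (2 * J)) < a := by
        refine ⟨(a - 1 / (2 * J)) / (2 * (1 / (2 * J))), div_pos (by linarith) (by linarith), ?_⟩
        have e : (1 + (a - 1 / (2 * J)) / (2 * (1 / (2 * J)))) * (1 / (2 * J))
            = 1 / (2 * J) + (a - 1 / (2 * J)) / 2 := by
          generalize 1 / (2 * J) = c at hc
          field_simp
        rw [e]
        linarith
      filter_upwards [hup δ hδ, hpos] with n hn hn0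
      rw [div_lt_iff₀ hn0]
      nlinarith
  exact cutoff_of_lim K hK P hP d hd' T hT (1 / 2)
    (1 / (2 * J)) (by norm_num) (by norm_num) hlim

end Pool.Agent.CutFull
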