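import Pool.Agent.CutFull.Off

/-!
Full cutoff, conditional part, row A: law of large numbers for all corners of the closed system.
-/

set_option autoImplicit false
set_option linter.unusedSectionVars false

namespace Pool.Agent.CutFull

open Finset Matrix Filter Topology Pool.Agent.Helper8.UT

variable {N : ℕ}

theorem crk_mono {a a' b b' : ℕ} (ha : a' ≤ a) (hb : b ≤ b') (A : MM N) : crk a' b' A ≤ crk a b A := by
  have h : cblk a' b' A =
      Matrix.diagonal (fun i : Fin N => if i.val < a' then (1 : ZMod 2) else 0) * cblk a b A *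
      Matrix.diagonal (fun j : Fin N => if b' ≤ j.val then (1 : ZMod 2) else 0) := by
    funext i j
    rw [Matrix.mul_diagonal, Matrix.diagonal_mul]
    unfold cblk
    by_cases h1 : i.val < a' ∧ b' ≤ j.val
    · have h2 : i.val < a ∧ b ≤ j.val := ⟨by omega, by omega⟩
      rw [if_pos h1, if_pos h2, if_pos h1.1, if_pos h1.2, one_mul, mul_one]
    · rw [if_neg h1]
      rw [not_and_or] at h1
      rcases h1 with h1 | h1
      · rw [if_neg h1, zero_mul, zero_mul]
      · rw [if_neg h1, mul_zero]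
  unfold crk
  rw [h]
  exact (Matrix.rank_mul_le_left _ _).trans (Matrix.rank_mul_le_right _ _)

/-- the exponentially small error -/
theorem small_err (e q : ℝ) (he : 0 < e) (hq : 0 < q) :
    ∀ᶠ n : ℕ in atTop, (n : ℝ) / 2 ^ ⌊e * n⌋₊ ≤ q := by
  have h1 : Tendsto (fun m : ℕ => (m : ℝ) ^ 1 / (2 : ℝ) ^ m) atTop (𝓝 0) :=
    tendsto_pow_const_div_const_pow_of_one_lt 1 (by norm_num)
  have h2 : Tendsto (fun n : ℕ => ⌊e * n⌋₊) atTop atTop := by
    refine tendsto_nat_floor_atTop.comp ?_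
    exact Tendsto.const_mul_atTop he tendsto_natCast_atTop_atTop
  have h3 := h1.comp h2
  have h4 : ∀ᶠ n : ℕ in atTop, (⌊e * n⌋₊ : ℝ) ^ 1 / (2 : ℝ) ^ ⌊e * n⌋₊ < q * (e / 2) :=
    h3.eventually (gt_mem_nhds (by positivity))
  have h5 : ∀ᶠ n : ℕ in atTop, 2 / e ≤ (n : ℝ) :=
    tendsto_natCast_atTop_atTop.eventually (eventually_ge_atTop _)
  filter_upwards [h4, h5] with n h6 h7
  have h8 : e * n < (⌊e * n⌋₊ : ℝ) + 1 := Nat.lt_floor_add_one _
  have h9 : 2 ≤ e * n := by
    rw [div_le_iff₀ he] at h7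
    linarith
  have h10 : (n : ℝ) * (e / 2) ≤ (⌊e * n⌋₊ : ℝ) := by linarith
  have hpos : (0 : ℝ) < 2 ^ ⌊e * n⌋₊ := by positivity
  rw [pow_one, div_lt_iff₀ hpos] at h6
  rw [div_le_iff₀ hpos]
  have h11 : (n : ℝ) * (e / 2) ≤ (q * 2 ^ ⌊e * n⌋₊) * (e / 2) := by linarith
  exact le_of_mul_le_mul_right h11 (by positivity)

open Classical in
/-- one corner -/
theorem corner_low (d e q : ℝ) (hd : 0 < d) (he : 0 < e) (hq : 0 < q) :
    ∀ᶠ n : ℕ in atTop, ∀ a b : ℕ, a ≤ b → b ≤ n →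
      EE n ((1 + d) * n / (2 * JJ)) (fun A => if crk a b A + 2 * ⌊e * n⌋₊ < min a (n - b)
        then (1 : ℝ) else 0) ≤ q := by
  have hJ := JJ_pos
  obtain ⟨η, hη⟩ : ∃ η, η = JJ * d / (1 + d) := ⟨_, rfl⟩
  have hη0 : 0 < η := by rw [hη]; positivity
  obtain ⟨t0, ht0, h0⟩ := off_low η (q / 2) hη0 (by linarith)
  have h1 : ∀ᶠ n : ℕ in atTop, t0 / ((1 + d) / (2 * JJ)) ≤ (n : ℝ) :=
    tendsto_natCast_atTop_atTop.eventually (eventually_ge_atTop _)
  filter_upwards [h1, small_err e (q / 2) he (by linarith)] with n h2 h3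
  intro a b hab hbn
  obtain ⟨t, ht⟩ : ∃ t, t = (1 + d) * (n : ℝ) / (2 * JJ) := ⟨_, rfl⟩
  have ht1 : t0 ≤ t := by
    rw [div_le_iff₀ (by positivity)] at h2
    rw [ht]
    refine h2.trans (le_of_eq ?_)
    ring
  have htp : 0 < t := lt_of_lt_of_le ht0 ht1
  rw [← ht]
  obtain ⟨s, hs⟩ : ∃ s : ℕ, s = ⌈4 * t⌉₊ := ⟨_, rfl⟩
  have hs4 : 4 * t ≤ s := by rw [hs]; exact Nat.le_ceil _
  have h4 := h0 t ht1 (n + 2 * s) (s + a) (s + b) s (by omega) hs4 (by omega) (by omega)
  have h5 := window_low htp.le (s := s) (n := n) (N := n + 2 * s) (by omega) hab hbn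
    (w := min a (n - b)) le_rfl ⌊e * n⌋₊
  refine h5.trans ?_
  have h6 : EE (n + 2 * s) t (fun A => if crk (s + a) (s + b) A < min a (n - b) then (1 : ℝ) else 0) ≤
      q / 2 := by
    refine le_trans (EE_mono htp.le fun A _ => ?_) h4
    by_cases h7 : crk (s + a) (s + b) A < min a (n - b)
    · rw [if_pos h7, if_pos]
      have h8 : 2 * crk (s + a) (s + b) A + 1 + b ≤ n + a := by omega
      have h9 : 2 * (crk (s + a) (s + b) A : ℝ) + 1 + b ≤ n + a := by exact_mod_cast h8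
      have h10 : (JJ - η) * t = (n : ℝ) / 2 := by
        rw [hη, ht]
        field_simp
        ring
      rw [h10]
      push_cast
      linarith
    · rw [if_neg h7]
      split_ifs <;> norm_num
  linarith

open Classical in
/-- **Row A: closed rank law of large numbers.** -/
theorem rank_lln (d e q : ℝ) (hd : 0 < d) (he : 0 < e) (hq : 0 < q) :
    ∀ᶠ n : ℕ in atTop,
      EE n ((1 + d) * n / (2 * JJ)) (fun A => if NearGen e A then (0 : ℝ) else 1) ≤ q := by
  have hJ := JJ_pos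
  obtain ⟨k, hk⟩ : ∃ k : ℕ, k = ⌈8 / e⌉₊ + 1 := ⟨_, rfl⟩
  have hk0 : (0 : ℝ) < k := by rw [hk]; push_cast; positivity
  have h1 : ∀ᶠ n : ℕ in atTop, 8 / e ≤ (n : ℝ) :=
    tendsto_natCast_atTop_atTop.eventually (eventually_ge_atTop _)
  filter_upwards [h1, eventually_ge_atTop 1,
    corner_low d (e / 8) (q / (k * k)) hd (by positivity) (by positivity)] with n h2 hn1 h3
  have hn0 : (0 : ℝ) < n := by exact_mod_cast hn1
  obtain ⟨t, ht⟩ : ∃ t, t = (1 + d) * (n : ℝ) / (2 * JJ) := ⟨_, rfl⟩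
  have htp : 0 ≤ t := by rw [ht]; positivity
  rw [← ht] at h3 ⊢
  obtain ⟨μ, hμ⟩ : ∃ μ : ℕ, μ = ⌈e * n / 8⌉₊ := ⟨_, rfl⟩
  have hμ1 : e * n / 8 ≤ μ := by rw [hμ]; exact Nat.le_ceil _
  have hμ2 : (μ : ℝ) < e * n / 8 + 1 := by rw [hμ]; exact Nat.ceil_lt_add_one (by positivity)
  have hen : 8 ≤ e * n := by
    rw [div_le_iff₀ he] at h2
    linarith
  have hμ0 : 0 < μ := by
    have : (0 : ℝ) < μ := by linarith
    exact_mod_cast this
  obtain ⟨m, hm⟩ : ∃ m : ℕ, m = ⌊e / 8 * n⌋₊ := ⟨_, rfl⟩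
  have hm1 : (m : ℝ) ≤ e / 8 * n := by rw [hm]; exact Nat.floor_le (by positivity)
  rw [← hm] at h3
  have hki : ∀ x : ℕ, x ≤ n → x / μ < k := by
    intro x hx
    rw [Nat.div_lt_iff_lt_mul hμ0]
    have h4 : (x : ℝ) < k * μ := by
      have h5 : (x : ℝ) ≤ n := by exact_mod_cast hx
      have h6 : 8 / e ≤ (⌈8 / e⌉₊ : ℝ) := Nat.le_ceil _
      have h7 : (8 / e) * (e * n / 8) = n := by
        field_simp
      have h8 : (8 / e) * (e * n / 8) ≤ (⌈8 / e⌉₊ : ℝ) * μ :=
        mul_le_mul h6 hμ1 (by positivity) (Nat.cast_nonneg _)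
      have h9 : (k : ℝ) * μ = (⌈8 / e⌉₊ : ℝ) * μ + μ := by
        rw [hk]
        push_cast
        ring
      have h10 : (0 : ℝ) < μ := by exact_mod_cast hμ0
      linarith
    exact_mod_cast h4
  have h4 := EE_union (N := n) htp (range k ×ˢ range k) (fun A : MM n => ¬ NearGen e A)
    (fun ij A => ij.1 * μ ≤ n - ij.2 * μ ∧
      crk (ij.1 * μ) (n - ij.2 * μ) A + 2 * m < min (ij.1 * μ) (n - (n - ij.2 * μ))) ?_
  · have h5 : EE n t (fun A => if NearGen e A then (0 : ℝ) else 1) =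
        EE n t (fun A => if ¬ NearGen e A then (1 : ℝ) else 0) := by
      congr 1
      funext A
      by_cases h6 : NearGen e A
      · rw [if_pos h6, if_neg (not_not.2 h6)]
      · rw [if_neg h6, if_pos h6]
    rw [h5]
    refine h4.trans ?_
    have h6 : ∀ ij ∈ range k ×ˢ range k, EE n t (fun A => if ij.1 * μ ≤ n - ij.2 * μ ∧
        crk (ij.1 * μ) (n - ij.2 * μ) A + 2 * m < min (ij.1 * μ) (n - (n - ij.2 * μ))
        then (1 : ℝ) else 0) ≤ q / (k * k) := by
      intro ij _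
      by_cases h7 : ij.1 * μ ≤ n - ij.2 * μ
      · refine le_trans (EE_mono htp fun A _ => ?_) (h3 (ij.1 * μ) (n - ij.2 * μ) h7 (Nat.sub_le _ _))
        split_ifs with h8 h9 h9
        · exact le_rfl
        · exact absurd h8.2 h9
        · norm_num
        · norm_num
      · have h8 : EE n t (fun A => if ij.1 * μ ≤ n - ij.2 * μ ∧
            crk (ij.1 * μ) (n - ij.2 * μ) A + 2 * m < min (ij.1 * μ) (n - (n - ij.2 * μ))
            then (1 : ℝ) else 0) ≤ 0 := by
          refine EE_le_one htp fun A => ?_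
          rw [if_neg (fun h => h7 h.1)]
        exact h8.trans (by positivity)
    refine (sum_le_sum h6).trans (le_of_eq ?_)
    rw [sum_const, card_product, Finset.card_range, nsmul_eq_mul]
    push_cast
    field_simp
  · intro A _ hA
    unfold NearGen at hA
    push Not at hA
    obtain ⟨a, b, hab, hbn, hlt⟩ := hA
    refine ⟨(a / μ, (n - b) / μ), ?_, ?_⟩
    · rw [mem_product]
      exact ⟨mem_range.2 (hki a (hab.trans hbn)), mem_range.2 (hki (n - b) (Nat.sub_le _ _))⟩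
    · have g1 : a / μ * μ ≤ a := Nat.div_mul_le_self a μ
      have g2 : (n - b) / μ * μ ≤ n - b := Nat.div_mul_le_self (n - b) μ
      have g3 : a < a / μ * μ + μ := Nat.lt_div_mul_add hμ0
      have g4 : n - b < (n - b) / μ * μ + μ := Nat.lt_div_mul_add hμ0
      simp only
      refine ⟨by omega, ?_⟩
      have g5 := crk_mono (N := n) g1 (show b ≤ n - (n - b) / μ * μ by omega) A
      have g6 : crk a b A + μ + 2 * m < min a (n - b) := by
        have g7 : (crk a b A : ℝ) + μ + 2 * m < min (a : ℝ) ((n : ℝ) - b) := by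
          have g8 : (μ : ℝ) + 2 * m ≤ e * n := by linarith
          linarith
        have g9 : ((n - b : ℕ) : ℝ) = (n : ℝ) - b := Nat.cast_sub hbn
        rw [← g9] at g7
        exact_mod_cast g7
      omega

open Classical in
/-- the same for the inverse -/
theorem rank_lln_inv (d e q : ℝ) (hd : 0 < d) (he : 0 < e) (hq : 0 < q) :
    ∀ᶠ n : ℕ in atTop,
      EE n ((1 + d) * n / (2 * JJ)) (fun A => if NearGen e A⁻¹ then (0 : ℝ) else 1) ≤ q := by
  filter_upwards [rank_lln d e q hd he hq] with n h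
  rw [EE_inv _ (fun A : MM n => if NearGen e A then (0 : ℝ) else 1)]
  exact h

end Pool.Agent.CutFull
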