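import Pool.Agent.CutFull.RowD
import Pool.Agent.CutFull.RankLLN

/-!
Full cutoff, conditional part: the statement of the problem from a bound for the density on the event
that all corners have nearly the generic rank.
-/

set_option autoImplicit false

namespace Pool.Agent.CutFull

open Filter Topology Pool.Agent.CutSeq
open Pool.Agent.Helper8.UT (MM EE pm JJ)

open Classical in
/-- If the density of `M(t)` at the times `(1 + δ) n / (2 J)` is rarely exponentially large in `n ^ 2`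
while the corners have nearly the generic rank, then the statement of the problem holds. -/
theorem full_of_cell
    (hcell : ∀ δ σ q : ℝ, 0 < δ → 0 < σ → 0 < q → ∃ ε : ℝ, 0 < ε ∧ ∀ᶠ n : ℕ in atTop,
      EE n ((1 + δ) * n / (2 * JJ)) (fun A => if NearGen ε A ∧ Real.exp (σ * (n : ℝ) ^ 2) ≤
        pm n ((1 + δ) * n / (2 * JJ)) A * 2 ^ (n * (n - 1) / 2) then (1 : ℝ) else 0) ≤ q) :
    ∀ (K : (n : ℕ) → Matrix (Matrix (Fin n) (Fin n) (ZMod 2)) (Matrix (Fin n) (Fin n) (ZMod 2)) ℝ),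
      (∀ (n : ℕ) (A B : Matrix (Fin n) (Fin n) (ZMod 2)),
        K n A B = (1 / 2 : ℝ) * (if B = A then 1 else 0)
          + (1 / (2 * ((n : ℝ) - 1))) *
            ∑ i : Fin n, ∑ j : Fin n,
              (if j.val = i.val + 1 ∧ B = A.updateRow i (A i + A j) then (1 : ℝ) else 0)) →
    ∀ (d : ℕ → ℝ → ℝ),
      (∀ (n : ℕ) (t : ℝ),
        d n t = (1 / 2 : ℝ) * ∑ B : Matrix (Fin n) (Fin n) (ZMod 2),
          |(∑' k : ℕ, Real.exp (-(((n : ℝ) - 1) * t)) * (((n : ℝ) - 1) * t) ^ k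
              / (k.factorial : ℝ) * ((K n) ^ k) 1 B)
            - (if (∀ a : Fin n, B a a = 1) ∧ (∀ a b : Fin n, b < a → B a b = 0)
                then (1 / 2 : ℝ) ^ (n * (n - 1) / 2) else 0)|) →
    ∀ (T : ℕ → ℝ → ℝ),
      (∀ (n : ℕ) (ε : ℝ), T n ε = sInf {t : ℝ | 0 ≤ t ∧ d n t ≤ ε}) →
    ∀ ε : ℝ, 0 < ε → ε < 1 →
      Tendsto (fun n : ℕ => T n ε / T n (1 - ε)) atTop (𝓝 1) :=
  full_of_soft (soft_of_cell (fun δ ε q hδ hε hq => rank_lln δ ε q hδ hε hq) hcell)

end Pool.Agent.CutFull
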