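import Pool.Agent.CutFull.Off

/-!
S19271, row HOLES, piece (H-d): corners off the diagonal: light cone and positivity.
-/

set_option autoImplicit false
set_option linter.unusedSectionVars false

namespace Pool.Agent.CutFull

open Finset Matrix Pool.Agent.Helper8.UT

variable {N : ℕ}

/-- the rank of the corner is at most the number of its rows which are not zero -/
theorem crk_le_nR {a b : ℕ} (hab : a ≤ b) (A : MM N) : crk a b A ≤ nR b (b - a) A := by
  classical
  unfold crk
  refine (rank_le_rows (cblk a b A) (fun i : Fin N => i.val < a ∧ RowNZ b i.val A) ?_).trans ?_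
  · intro i hi j
    unfold cblk
    by_cases h : i.val < a ∧ b ≤ j.val
    · rw [if_pos h]
      by_contra hne
      refine hi ⟨h.1, j, h.2, ?_⟩
      have e : rowN A i.val j = A i j := by
        unfold rowN
        rw [dif_pos i.isLt]
      rw [e]
      exact hne
    · rw [if_neg h]
  · unfold nR
    refine card_le_card_of_injOn (fun i : Fin N => i.val) ?_ ?_
    · intro i hi
      have h := (mem_filter.1 (Finset.mem_coe.1 hi)).2
      have h1 : i.val < a := h.1
      have h2 : i.val < b := by omega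
      have h3 : i.val + (b - a) < b := by omega
      exact Finset.mem_coe.2 (mem_filter.2 ⟨mem_range.2 h2, h3, h.2⟩)
    · intro i _ j _ h
      exact Fin.ext h

/-- light cone: the corner at distance at least `2 t` has expected rank at most one -/
theorem EE_crk_cone {a b : ℕ} {t : ℝ} (ht : 0 ≤ t) (hab : a ≤ b) (h : 2 * t ≤ (b : ℝ) - a) :
    EE N t (fun A => (crk a b A : ℝ)) ≤ 1 := by
  refine le_trans ?_ (EE_nR (N := N) (a := b) (c := b - a) ht ?_)
  · refine EE_mono ht fun A _ => ?_
    exact_mod_cast crk_le_nR hab A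
  · rw [Nat.cast_sub hab]
    exact h

/-- positivity: the corner off the diagonal has expected rank at least `(J - η) t - (b - a) / 2` -/
theorem EE_crk_pos (η : ℝ) (hη : 0 < η) : ∃ t0 : ℝ, 0 < t0 ∧ ∀ t : ℝ, t0 ≤ t →
    ∀ N a b c : ℕ, a ≤ b → 4 * t ≤ c → c ≤ a → b + c ≤ N →
      (JJ - η) * t - ((b : ℝ) - a) / 2 ≤ EE N t (fun A => (crk a b A : ℝ)) := by
  classical
  have hJ := JJ_pos
  obtain ⟨q, hq⟩ : ∃ q : ℝ, q = η / (2 * (JJ + η)) := ⟨_, rfl⟩
  have hq0 : 0 < q := by rw [hq]; positivity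
  obtain ⟨t0, ht0, h0⟩ := off_low (η / 2) q (by positivity) hq0
  refine ⟨t0, ht0, ?_⟩
  intro t ht N a b c hab hc hca hN
  have htp : 0 < t := lt_of_lt_of_le ht0 ht
  have h1 := h0 t ht N a b c hab hc hca hN
  obtain ⟨ℓ, hℓ⟩ : ∃ ℓ, ℓ = (JJ - η / 2) * t - ((b : ℝ) - a) / 2 := ⟨_, rfl⟩
  rw [← hℓ] at h1
  have hab' : (0 : ℝ) ≤ (b : ℝ) - a := by
    have : (a : ℝ) ≤ b := by exact_mod_cast hab
    linarith
  by_cases hl : ℓ ≤ 0
  · have h2 : 0 ≤ EE N t (fun A => (crk a b A : ℝ)) := EE_nonneg htp.le fun A => by positivity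
    refine le_trans ?_ h2
    rw [hℓ] at hl
    nlinarith
  · rw [not_le] at hl
    have h2 : EE N t (fun A => ℓ + (-ℓ) * (if (crk a b A : ℝ) < ℓ then (1 : ℝ) else 0)) ≤
        EE N t (fun A => (crk a b A : ℝ)) := by
      refine EE_mono htp.le fun A _ => ?_
      split_ifs with h
      · have : (0 : ℝ) ≤ (crk a b A : ℝ) := by positivity
        linarith
      · rw [not_lt] at h
        linarith
    have h3 : EE N t (fun A => ℓ + (-ℓ) * (if (crk a b A : ℝ) < ℓ then (1 : ℝ) else 0)) =
        ℓ + (-ℓ) * EE N t (fun A => if (crk a b A : ℝ) < ℓ then (1 : ℝ) else 0) := by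
      have e1 := EE_const (N := N) htp.le ℓ
      have e2 := EE_mul_const (N := N) t (-ℓ)
        (fun A => if (crk a b A : ℝ) < ℓ then (1 : ℝ) else 0)
      unfold EE at e1 e2 ⊢
      rw [Sg_add_apply, e1, e2]
    rw [h3] at h2
    have h4 : ℓ * q ≤ η / 2 * t := by
      have h5 : ℓ ≤ (JJ + η) * t := by
        rw [hℓ]
        nlinarith
      have h6 : (JJ + η) * q = η / 2 := by
        rw [hq]
        field_simp
      calc ℓ * q ≤ (JJ + η) * t * q := mul_le_mul_of_nonneg_right h5 hq0.le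
        _ = (JJ + η) * q * t := by ring
        _ = η / 2 * t := by rw [h6]
    have h7 : ℓ * EE N t (fun A => if (crk a b A : ℝ) < ℓ then (1 : ℝ) else 0) ≤ ℓ * q :=
      mul_le_mul_of_nonneg_left h1 hl.le
    have h8 : (JJ - η) * t - ((b : ℝ) - a) / 2 = ℓ - η / 2 * t := by rw [hℓ]; ring
    rw [h8]
    linarith

end Pool.Agent.CutFull
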