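import Pool.Agent.CutFull.ClosedTop
import Pool.Agent.CutSeq.Fwd

/-!
S19271, row HOLES, piece (P): absolute positivity.  At time `t` at least `5.9 n` the corner at distance
`n` from the diagonal has expected rank at least `c n`, with an absolute constant `c`.
-/

set_option autoImplicit false
set_option linter.unusedSectionVars false

namespace Pool.Agent.CutFull

open Finset Matrix Pool.Agent.Helper8.UT
open Pool.Agent.UTM.Es (Y cf op LL heat)

variable {N : ℕ}

/-- the values of the rows on a functional, read from the last row -/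
def yv (ψ : VV N) (A : MM N) : Y N := fun k => sq ψ A (N - 1 - k.val)

theorem cf_yv (ψ : VV N) (A : MM N) {k : ℕ} (hk : k < N) : cf (yv ψ A) k = sq ψ A (N - 1 - k) := by
  unfold cf yv
  rw [dif_pos hk]

theorem yv_stl (ψ : VV N) (A : MM N) (i : Fin N) :
    yv ψ (stl i A) = op (sig i).val (yv ψ A) := by
  apply Pool.Agent.UTM.Es.Y_ext
  intro k hk
  rw [cf_yv _ _ hk, sq_stl, Pool.Agent.UTM.Es.cf_op, cf_yv _ _ hk]
  unfold up sig
  by_cases hi : i.val + 1 < N
  · rw [dif_pos hi]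
    simp only
    by_cases h : N - 1 - k = i.val
    · rw [if_pos h, if_pos (by omega), cf_yv _ _ (by omega)]
      congr 2
      omega
    · rw [if_neg h, if_neg (by omega)]
  · rw [dif_neg hi]
    have hi2 := i.isLt
    have h0 : sq ψ A (i.val + 1) = 0 := sq_out ψ A (by omega)
    rw [h0, if_neg (show ¬ (k = i.val + 1 ∧ k < N) by omega)]
    simp

theorem gen_yv (ψ : VV N) (G : Y N → ℝ) (A : MM N) :
    gen (stl (N := N)) (fun B => G (yv ψ B)) A = LL N G (yv ψ A) := by
  rw [Pool.Agent.UTM.Es.LL_apply]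
  unfold gen
  rw [Finset.mul_sum, ← Fin.sum_univ_eq_sum_range
    (fun k => (1 / 2 : ℝ) * (G (op k (yv ψ A)) - G (yv ψ A))) N]
  rw [← Equiv.sum_comp (⟨sig, sig, sig_inv, sig_inv⟩ : Fin N ≃ Fin N)]
  refine Finset.sum_congr rfl fun i _ => ?_
  change (1 / 2 : ℝ) * (G (yv ψ (stl (sig i) A)) - G (yv ψ A)) = _
  rw [yv_stl, sig_inv i]

/-- the walk on matrices seen through one functional -/
theorem EE_yv (ψ : VV N) (t : ℝ) (F : Y N → ℝ) :
    EE N t (fun A => F (yv ψ A)) = heat (LL N) t F (yv ψ 1) := by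
  have h := Pool.Agent.UTM.Es.heat_intertwine (LL N) (genL (stl (N := N)))
    (Pool.Agent.UTM.Es.pull (yv ψ)) (fun G => by
      funext A
      rw [genL_apply]
      exact gen_yv ψ G A) t F
  have h1 := congrFun h 1
  rw [Pool.Agent.UTM.Es.pull_apply] at h1
  exact h1

/-- one functional next to the corner: the front passes with exponentially small exceptions -/
theorem ker_front (u : ℝ) (hu : u < Pool.Agent.UTM.Es.vv) : ∃ θ C : ℝ, 0 < θ ∧ 1 ≤ C ∧
    ∀ (N : ℕ) (t : ℝ), 0 ≤ t → ∀ a b q X : ℕ, a ≤ b → b + q ≤ N → q + X ≤ a →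
      (b : ℝ) + q - a ≤ u * t → ∀ ψ : VV N, suppIn ψ b (b + q) → ψ ≠ 0 →
        EE N t (fun A => if ∀ m, m < a → rowN A m ⬝ᵥ ψ = 0 then (1 : ℝ) else 0)
          ≤ C * (Real.exp (-(θ * t)) + Real.exp (-(θ * X))) := by
  obtain ⟨θ, C, hθ, hC, H⟩ := Pool.Agent.CutSeq.forward_ct u hu
  refine ⟨θ, C, hθ, hC, ?_⟩
  intro N t ht a b q X hab hbq hqX hut ψ hψ h0
  obtain ⟨j0, hj0⟩ : ∃ j, ψ j ≠ 0 := by
    by_contra hc
    push Not at hc
    exact h0 (funext hc)
  have hj1 := hψ j0 hj0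
  have hNj := j0.isLt
  have hz0 : cf (yv ψ 1) (N - 1 - j0.val) ≠ 0 := by
    rw [cf_yv _ _ (by omega)]
    have : N - 1 - (N - 1 - j0.val) = j0.val := by omega
    rw [this, sq_one]
    exact hj0
  have hz : yv ψ (1 : MM N) ≠ 0 := by
    intro h
    apply hz0
    rw [h]
    unfold cf
    split_ifs <;> rfl
  have htop1 : N - 1 - j0.val ≤ Pool.Agent.UTM.Es.top (yv ψ (1 : MM N)) :=
    Pool.Agent.UTM.Es.le_top _ hz0
  have htop2 : Pool.Agent.UTM.Es.top (yv ψ (1 : MM N)) ≤ N - 1 - b := by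
    have h1 := Pool.Agent.UTM.Es.cf_top' _ hz
    have h2 : Pool.Agent.UTM.Es.top (yv ψ (1 : MM N)) < N := by
      by_contra h3
      exact h1 (Pool.Agent.UTM.Es.cf_ge _ (by omega))
    rw [cf_yv _ _ h2] at h1
    have h3 : N - 1 - Pool.Agent.UTM.Es.top (yv ψ (1 : MM N)) < N := by omega
    have h4 := sq_one ψ ⟨_, h3⟩
    simp only at h4
    rw [h4] at h1
    have h5 := (hψ _ h1).1
    simp only at h5
    omega
  have hℓ : (((b + q - a : ℕ)) : ℝ) ≤ u * t := by
    rw [Nat.cast_sub (by omega)]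
    push_cast
    exact hut
  have h1 := H N t ht (b + q - a) X hℓ (yv ψ 1) hz (by omega)
  rw [← EE_yv ψ t] at h1
  refine le_trans (EE_mono ht fun A _ => ?_) h1
  by_cases h2 : ∀ m, m < a → rowN A m ⬝ᵥ ψ = 0
  · rw [if_pos h2, if_pos]
    by_contra h3
    rw [not_lt] at h3
    have h4 : yv ψ A ≠ 0 := by
      intro h5
      rw [h5] at h3
      have : Pool.Agent.UTM.Es.top (0 : Y N) = 0 := Pool.Agent.UTM.Es.top_zero N
      omega
    have h5 := Pool.Agent.UTM.Es.cf_top' _ h4
    have h6 : Pool.Agent.UTM.Es.top (yv ψ A) < N := by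
      by_contra h3
      exact h5 (Pool.Agent.UTM.Es.cf_ge _ (by omega))
    rw [cf_yv _ _ h6] at h5
    exact h5 (h2 _ (by omega))
  · rw [if_neg h2]
    split_ifs <;> norm_num

open Classical in
/-- lower bound for the expected rank of a corner -/
theorem EE_crk_lower {t c : ℝ} (ht : 0 ≤ t) {a b q : ℕ} (hbq : b + q ≤ N) (hc0 : 0 ≤ c)
    (h : ∀ ψ : VV N, suppIn ψ b (b + q) → ψ ≠ 0 →
      EE N t (fun A => if ∀ m, m < a → rowN A m ⬝ᵥ ψ = 0 then (1 : ℝ) else 0) ≤ c) :
    (q : ℝ) - 2 ^ q * c ≤ EE N t (fun A => (crk a b A : ℝ)) := by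
  obtain ⟨K, hK⟩ : ∃ K : MM N → Finset (VV N), K = fun A =>
    (SI N b (b + q)).filter fun ψ => ∀ m, m < a → rowN A m ⬝ᵥ ψ = 0 := ⟨_, rfl⟩
  have h1 : EE N t (fun A => ((K A).card : ℝ)) ≤ 1 + 2 ^ q * c := by
    have h2 : EE N t (fun A => ((K A).card : ℝ)) =
        ∑ ψ ∈ SI N b (b + q),
          EE N t (fun A => if ∀ m, m < a → rowN A m ⬝ᵥ ψ = 0 then (1 : ℝ) else 0) := by
      have : ∑ ψ ∈ SI N b (b + q),
          EE N t (fun A => if ∀ m, m < a → rowN A m ⬝ᵥ ψ = 0 then (1 : ℝ) else 0) =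
          EE N t (fun A => ∑ ψ ∈ SI N b (b + q),
            if ∀ m, m < a → rowN A m ⬝ᵥ ψ = 0 then (1 : ℝ) else 0) := by
        unfold EE
        rw [Sg_sum_apply]
      rw [this]
      congr 1
      funext A
      rw [hK]
      simp only
      rw [← Finset.sum_filter, Finset.sum_const, nsmul_eq_mul, mul_one]
    rw [h2, ← Finset.add_sum_erase _ _ (SI_sub0 b (b + q)).1]
    refine add_le_add ?_ ?_
    · exact EE_le_one ht fun A => by split_ifs <;> norm_num
    · have h3 : ∀ ψ ∈ (SI N b (b + q)).erase 0,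
          EE N t (fun A => if ∀ m, m < a → rowN A m ⬝ᵥ ψ = 0 then (1 : ℝ) else 0) ≤ c := by
        intro ψ hψ
        rw [Finset.mem_erase, mem_SI] at hψ
        exact h ψ hψ.2 hψ.1
      refine (Finset.sum_le_sum h3).trans ?_
      rw [Finset.sum_const, nsmul_eq_mul]
      refine mul_le_mul_of_nonneg_right ?_ hc0
      have h4 : ((SI N b (b + q)).erase 0).card ≤ 2 ^ q := by
        refine (Finset.card_erase_le).trans (le_of_eq ?_)
        rw [card_SI (by omega) hbq]
        congr 1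
        omega
      exact_mod_cast h4
  have h5 : EE N t (fun _ => (q : ℝ) + 1) ≤
      EE N t (fun A => (crk a b A : ℝ) + ((K A).card : ℝ)) := by
    refine EE_mono ht fun A _ => ?_
    have h6 : 2 ^ q ≤ (K A).card * 2 ^ crk a b A := by
      have h7 := ker_lower (cblk a b A) (SI N b (b + q)) (SI_sub0 b (b + q))
      rw [card_SI (by omega) hbq, show b + q - b = q by omega] at h7
      have h8 : (SI N b (b + q)).filter (fun ψ => cblk a b A *ᵥ ψ = 0) = K A := by
        rw [hK]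
        simp only
        refine Finset.filter_congr fun ψ hψ => ?_
        rw [← tblk_zero, tblk_mulVec_eq_zero_iff A (suppIn_mono (mem_SI.1 hψ) le_rfl hbq)]
        constructor
        · intro h m hm
          exact h m (Nat.zero_le m) hm
        · intro h m _ hm
          exact h m hm
      rw [h8] at h7
      exact h7
    have h8 : q + 1 ≤ crk a b A + (K A).card := by
      rcases le_or_gt q (crk a b A) with h | h
      · have : 0 < (K A).card := by
          rcases Nat.eq_zero_or_pos (K A).card with h9 | h9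
          · rw [h9, zero_mul] at h6
            have : 0 < 2 ^ q := by positivity
            omega
          · exact h9
        omega
      · have h9 : 2 ^ (q - crk a b A) * 2 ^ crk a b A ≤ (K A).card * 2 ^ crk a b A := by
          rw [← pow_add]
          have : q - crk a b A + crk a b A = q := by omega
          rw [this]
          exact h6
        have h10 := Nat.le_of_mul_le_mul_right h9 (by positivity)
        have h11 : q - crk a b A < 2 ^ (q - crk a b A) := Nat.lt_two_pow_self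
        omega
    exact_mod_cast h8
  rw [EE_const ht] at h5
  have h12 : EE N t (fun A => (crk a b A : ℝ) + ((K A).card : ℝ)) =
      EE N t (fun A => (crk a b A : ℝ)) + EE N t (fun A => ((K A).card : ℝ)) :=
    Sg_add_apply _ t _ _ _
  rw [h12] at h5
  linarith

/-- **absolute positivity** -/
theorem EE_crk_abs : ∃ c1 : ℝ, 0 < c1 ∧ c1 ≤ 1 ∧ ∃ n0 : ℕ, ∀ n : ℕ, n0 ≤ n → ∀ t : ℝ,
    59 / 10 * (n : ℝ) ≤ t → ∀ N a : ℕ, n ≤ a → a + 2 * n ≤ N →
      c1 * n ≤ EE N t (fun A => (crk a (a + n) A : ℝ)) := by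
  have hv := Pool.Agent.UTM.Es.vv_ge
  obtain ⟨θ, C, hθ, hC, H⟩ := ker_front (18 / 100) (by linarith)
  obtain ⟨c, hc⟩ : ∃ c : ℝ, c = min (1 / 50) (θ / 8) := ⟨_, rfl⟩
  have hc0 : 0 < c := by rw [hc]; exact lt_min (by norm_num) (by positivity)
  have hc1 : c ≤ 1 / 50 := by rw [hc]; exact min_le_left _ _
  have hc2 : c ≤ θ / 8 := by rw [hc]; exact min_le_right _ _
  refine ⟨c / 2, by positivity, by linarith, ⌈4 / c⌉₊ + ⌈16 * C / (3 * θ)⌉₊, ?_⟩
  intro n hn t ht N a hna haN
  have hn1 : 4 / c ≤ (n : ℝ) := by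
    refine (Nat.le_ceil _).trans ?_
    exact_mod_cast (Nat.le_add_right _ _).trans hn
  have hn2 : 16 * C / (3 * θ) ≤ (n : ℝ) := by
    refine (Nat.le_ceil _).trans ?_
    exact_mod_cast (Nat.le_add_left _ _).trans hn
  have hn0 : (0 : ℝ) ≤ n := Nat.cast_nonneg n
  have ht0 : 0 ≤ t := by linarith
  rw [div_le_iff₀ hc0] at hn1
  rw [div_le_iff₀ (by positivity)] at hn2
  obtain ⟨q, hq⟩ : ∃ q : ℕ, q = ⌊c * n⌋₊ := ⟨_, rfl⟩
  have hq1 : (q : ℝ) ≤ c * n := by rw [hq]; exact Nat.floor_le (by positivity)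
  have hq2 : c * n < q + 1 := by rw [hq]; exact Nat.lt_floor_add_one _
  have hqn' : (q : ℝ) ≤ n / 50 := by nlinarith
  have hqn : q ≤ n := by
    have : (q : ℝ) ≤ n := by linarith
    exact_mod_cast this
  have hX : ((n - q : ℕ) : ℝ) = n - q := Nat.cast_sub hqn
  have hX2 : (n : ℝ) / 2 ≤ ((n - q : ℕ) : ℝ) := by rw [hX]; linarith
  obtain ⟨B, hB⟩ : ∃ B : ℝ, B = C * (Real.exp (-(θ * t)) + Real.exp (-(θ * ((n - q : ℕ) : ℝ)))) :=
    ⟨_, rfl⟩
  have hB0 : 0 ≤ B := by rw [hB]; positivity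
  have h1 := EE_crk_lower (N := N) ht0 (a := a) (b := a + n) (q := q) (by omega) hB0
    (fun ψ hψ h0 => by
      rw [hB]
      refine H N t ht0 a (a + n) q (n - q) (by omega) (by omega) (by omega) ?_ ψ hψ h0
      push_cast
      linarith)
  have h2 : (2 : ℝ) ^ q * B ≤ 1 := by
    have e1 : (2 : ℝ) ^ q ≤ Real.exp (c * n) := by
      have e2 : (2 : ℝ) ≤ Real.exp 1 := by
        have := Real.add_one_le_exp 1
        linarith
      calc (2 : ℝ) ^ q ≤ Real.exp 1 ^ q := pow_le_pow_left₀ (by norm_num) e2 q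
        _ = Real.exp q := by rw [← Real.exp_nat_mul, mul_one]
        _ ≤ Real.exp (c * n) := Real.exp_le_exp.2 hq1
    have e3 : B ≤ 2 * C * Real.exp (-(θ * (n / 2))) := by
      have e4 : Real.exp (-(θ * t)) ≤ Real.exp (-(θ * (n / 2))) := by
        apply Real.exp_le_exp.2
        have := mul_le_mul_of_nonneg_left (show (n : ℝ) / 2 ≤ t by linarith) hθ.le
        linarith
      have e5 : Real.exp (-(θ * ((n - q : ℕ) : ℝ))) ≤ Real.exp (-(θ * (n / 2))) := by
        apply Real.exp_le_exp.2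
        have := mul_le_mul_of_nonneg_left hX2 hθ.le
        linarith
      rw [hB]
      nlinarith
    have e6 : (2 : ℝ) ^ q * B ≤ 2 * C * Real.exp (-(3 * θ / 8 * n)) := by
      calc (2 : ℝ) ^ q * B ≤ Real.exp (c * n) * (2 * C * Real.exp (-(θ * (n / 2)))) :=
            mul_le_mul e1 e3 hB0 (Real.exp_pos _).le
        _ = 2 * C * Real.exp (c * n - θ * (n / 2)) := by
            rw [sub_eq_add_neg, Real.exp_add]
            ring
        _ ≤ 2 * C * Real.exp (-(3 * θ / 8 * n)) := by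
            refine mul_le_mul_of_nonneg_left (Real.exp_le_exp.2 ?_) (by positivity)
            have := mul_le_mul_of_nonneg_right hc2 hn0
            linarith
    refine e6.trans ?_
    have e7 : 2 * C ≤ Real.exp (3 * θ / 8 * n) := by
      have := Real.add_one_le_exp (3 * θ / 8 * n)
      linarith
    rw [Real.exp_neg, ← div_eq_mul_inv, div_le_one (Real.exp_pos _)]
    exact e7
  refine le_trans ?_ h1
  have : c * n < q + 1 := hq2
  linarith

end Pool.Agent.CutFull
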