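import Pool.Agent.CutFull.Off

/-!
S19271 / TARGET B, HOLES (helper48): increments of the corner ranks of a closed window are at least
the increments of the corner ranks of a larger box (submodularity of the rank in the columns).
-/

set_option autoImplicit false
set_option linter.unusedSectionVars false

namespace Pool.Agent.CutFull

open Finset Matrix Pool.Agent.Helper8.UT

/-- column `j` of the first `a` rows, as a vector indexed by the natural numbers -/
def colv {N : ℕ} (A : MM N) (a j : ℕ) : ℕ → ZMod 2 := fun i =>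
  if h : i < a ∧ i < N ∧ j < N then A ⟨i, h.2.1⟩ ⟨j, h.2.2⟩ else 0

/-- zero extension -/
def zext (N : ℕ) : (Fin N → ZMod 2) →ₗ[ZMod 2] (ℕ → ZMod 2) where
  toFun v := fun i => if h : i < N then v ⟨i, h⟩ else 0
  map_add' := by
    intro x y
    funext i
    by_cases h : i < N
    · simp [h]
    · simp [h]
  map_smul' := by
    intro c x
    funext i
    by_cases h : i < N
    · simp [h]
    · simp [h]

theorem zext_injective (N : ℕ) : Function.Injective (zext N) := by
  intro x y h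
  funext i
  have h1 := congrFun h i.val
  change (if h : i.val < N then x ⟨i.val, h⟩ else 0) = (if h : i.val < N then y ⟨i.val, h⟩ else 0) at h1
  rw [dif_pos i.isLt, dif_pos i.isLt] at h1
  exact h1

theorem crk_eq_span {N : ℕ} (a b : ℕ) (A : MM N) :
    crk a b A = Module.finrank (ZMod 2)
      (Submodule.span (ZMod 2) {v : ℕ → ZMod 2 | ∃ j, b ≤ j ∧ j < N ∧ v = colv A a j}) := by
  unfold crk
  rw [Matrix.rank_eq_finrank_span_cols,
    LinearEquiv.finrank_eq (Submodule.equivMapOfInjective (zext N) (zext_injective N) _),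
    Submodule.map_span]
  suffices key : Submodule.span (ZMod 2) ((zext N) '' Set.range (cblk a b A).col) =
      Submodule.span (ZMod 2) {v : ℕ → ZMod 2 | ∃ j, b ≤ j ∧ j < N ∧ v = colv A a j} by
    rw [key]
  apply le_antisymm
  · rw [Submodule.span_le]
    rintro v ⟨w, ⟨j, rfl⟩, rfl⟩
    by_cases hj : b ≤ j.val
    · apply Submodule.subset_span
      refine ⟨j.val, hj, j.isLt, ?_⟩
      funext i
      change (if h : i < N then (cblk a b A)ᵀ j ⟨i, h⟩ else 0) = _
      unfold colv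
      by_cases h1 : i < N
      · rw [dif_pos h1, Matrix.transpose_apply]
        unfold cblk
        by_cases h2 : i < a
        · rw [if_pos ⟨h2, hj⟩, dif_pos ⟨h2, h1, j.isLt⟩]
        · rw [if_neg (fun h => h2 h.1), dif_neg (fun h => h2 h.1)]
      · rw [dif_neg h1, dif_neg (fun h => h1 h.2.1)]
    · have h0 : (zext N) ((cblk a b A).col j) = 0 := by
        funext i
        change (if h : i < N then (cblk a b A)ᵀ j ⟨i, h⟩ else 0) = 0
        by_cases h1 : i < N
        · rw [dif_pos h1, Matrix.transpose_apply]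
          unfold cblk
          rw [if_neg (fun h => hj h.2)]
        · rw [dif_neg h1]
      change (zext N) ((cblk a b A).col j) ∈ _
      rw [h0]
      exact Submodule.zero_mem _
  · rw [Submodule.span_le]
    rintro v ⟨j, hj, hjN, rfl⟩
    apply Submodule.subset_span
    refine ⟨(cblk a b A).col ⟨j, hjN⟩, ⟨⟨j, hjN⟩, rfl⟩, ?_⟩
    funext i
    change (if h : i < N then (cblk a b A)ᵀ ⟨j, hjN⟩ ⟨i, h⟩ else 0) = _
    unfold colv
    by_cases h1 : i < N
    · rw [dif_pos h1, Matrix.transpose_apply]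
      unfold cblk
      by_cases h2 : i < a
      · rw [if_pos ⟨h2, hj⟩, dif_pos ⟨h2, h1, hjN⟩]
      · rw [if_neg (fun h => h2 h.1), dif_neg (fun h => h2 h.1)]
    · rw [dif_neg h1, dif_neg (fun h => h1 h.2.1)]

theorem colv_mid {N M : ℕ} (h : 0 + M ≤ N) (A : MM N) {a : ℕ} (ha : a ≤ M) {j : ℕ} (hj : j < M) :
    colv (mid 0 M h A) a j = colv A a j := by
  funext i
  unfold colv
  by_cases h1 : i < a
  · rw [dif_pos ⟨h1, by omega, hj⟩, dif_pos ⟨h1, by omega, by omega⟩]
    unfold mid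
    congr 1
    · apply Fin.ext
      simp
    · apply Fin.ext
      simp
  · rw [dif_neg (fun h => h1 h.1), dif_neg (fun h => h1 h.1)]

/-- closed increments are at least open increments -/
theorem crk_mid_incr {N M : ℕ} (h : 0 + M ≤ N) (A : MM N) {a b b' : ℕ} (ha : a ≤ M) (hb : b ≤ b')
    (hb' : b' ≤ M) :
    crk a b A + crk a b' (mid 0 M h A) ≤ crk a b (mid 0 M h A) + crk a b' A := by
  rw [crk_eq_span, crk_eq_span, crk_eq_span, crk_eq_span]
  have e : ∀ c : ℕ, {v : ℕ → ZMod 2 | ∃ j, c ≤ j ∧ j < M ∧ v = colv (mid 0 M h A) a j} =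
      {v : ℕ → ZMod 2 | ∃ j, c ≤ j ∧ j < M ∧ v = colv A a j} := by
    intro c
    ext v
    constructor
    · rintro ⟨j, h1, h2, h3⟩
      exact ⟨j, h1, h2, by rw [h3, colv_mid h A ha h2]⟩
    · rintro ⟨j, h1, h2, h3⟩
      exact ⟨j, h1, h2, by rw [h3, colv_mid h A ha h2]⟩
  rw [e, e]
  have hfin : ∀ (c d : ℕ), {v : ℕ → ZMod 2 | ∃ j, c ≤ j ∧ j < d ∧ v = colv A a j}.Finite := by
    intro c d
    apply Set.Finite.subset ((Set.finite_Iio d).image (fun j => colv A a j))
    rintro v ⟨j, _, h2, h3⟩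
    exact ⟨j, h2, h3.symm⟩
  have hfd : ∀ (c d : ℕ), FiniteDimensional (ZMod 2) (Submodule.span (ZMod 2)
      {v : ℕ → ZMod 2 | ∃ j, c ≤ j ∧ j < d ∧ v = colv A a j}) := fun c d =>
    FiniteDimensional.span_of_finite _ (hfin c d)
  have := hfd b M
  have := hfd b' N
  have := hfd b N
  have := hfd b' M
  have h1 := Submodule.finrank_sup_add_finrank_inf_eq
    (Submodule.span (ZMod 2) {v : ℕ → ZMod 2 | ∃ j, b ≤ j ∧ j < M ∧ v = colv A a j})
    (Submodule.span (ZMod 2) {v : ℕ → ZMod 2 | ∃ j, b' ≤ j ∧ j < N ∧ v = colv A a j})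
  have h2 : Submodule.span (ZMod 2) {v : ℕ → ZMod 2 | ∃ j, b ≤ j ∧ j < N ∧ v = colv A a j} ≤
      Submodule.span (ZMod 2) {v : ℕ → ZMod 2 | ∃ j, b ≤ j ∧ j < M ∧ v = colv A a j} ⊔
      Submodule.span (ZMod 2) {v : ℕ → ZMod 2 | ∃ j, b' ≤ j ∧ j < N ∧ v = colv A a j} := by
    rw [Submodule.span_le]
    rintro v ⟨j, h3, h4, h5⟩
    by_cases h6 : j < M
    · exact (le_sup_left : _ ≤ _ ⊔ Submodule.span (ZMod 2)
        {v : ℕ → ZMod 2 | ∃ j, b' ≤ j ∧ j < N ∧ v = colv A a j})
        (Submodule.subset_span ⟨j, h3, h6, h5⟩)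
    · exact (le_sup_right : _ ≤ Submodule.span (ZMod 2)
        {v : ℕ → ZMod 2 | ∃ j, b ≤ j ∧ j < M ∧ v = colv A a j} ⊔ _)
        (Submodule.subset_span ⟨j, by omega, h4, h5⟩)
  have h3 : Submodule.span (ZMod 2) {v : ℕ → ZMod 2 | ∃ j, b' ≤ j ∧ j < M ∧ v = colv A a j} ≤
      Submodule.span (ZMod 2) {v : ℕ → ZMod 2 | ∃ j, b ≤ j ∧ j < M ∧ v = colv A a j} ⊓
      Submodule.span (ZMod 2) {v : ℕ → ZMod 2 | ∃ j, b' ≤ j ∧ j < N ∧ v = colv A a j} := by
    rw [le_inf_iff]
    constructor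
    · apply Submodule.span_mono
      rintro v ⟨j, h4, h5, h6⟩
      exact ⟨j, by omega, h5, h6⟩
    · apply Submodule.span_mono
      rintro v ⟨j, h4, h5, h6⟩
      exact ⟨j, h4, by omega, h6⟩
  have h4 := Submodule.finrank_mono h2
  have h5 := Submodule.finrank_mono h3
  omega

end Pool.Agent.CutFull
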