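import Pool.Agent.CutFull.Open

/-!
Full cutoff, conditional part, row A2: the corners above the diagonal of a wide window.
-/

set_option autoImplicit false
set_option linter.unusedSectionVars false

namespace Pool.Agent.CutFull

open Finset Matrix Pool.Agent.Helper8.UT

variable {N : ℕ}

/-! the law of the inverse -/

theorem xg_mul_self (i : Fin N) : xg i * xg i = 1 := by
  have h : stl i (stl i (1 : MM N)) = 1 := by
    funext a b
    rw [stl_apply, stl_apply]
    by_cases ha : a = i
    · subst ha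
      rw [if_pos rfl, if_pos rfl, rowN_stl_of_ne a 1 (by omega)]
      rw [add_assoc, CharTwo.add_self_eq_zero, add_zero]
    · rw [if_neg ha, if_neg ha, add_zero, add_zero]
  unfold stl at h
  rwa [Matrix.mul_one] at h

theorem xg_inv (i : Fin N) : (xg i)⁻¹ = xg i := Matrix.inv_eq_right_inv (xg_mul_self i)

theorem EE_inv (t : ℝ) (f : MM N → ℝ) : EE N t (fun A => f A⁻¹) = EE N t f := by
  unfold EE
  have h := Sg_eq_of_iter (stl (N := N)) (stl (N := N)) (fun A => f A⁻¹) f 1 1 1 t ?_
  · rw [h, one_mul]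
  · intro k
    rw [one_mul, iter_one k f]
    have := iter_intertwine (stX := stl (N := N)) (stY := strr (N := N)) (fun A => A⁻¹)
      (Clo_univ (stl (N := N))) (fun g A _ => ?_) k f 1 trivial
    · rw [this, Matrix.inv_eq_right_inv (Matrix.one_mul (1 : MM N))]
    · unfold gen
      congr 1
      refine Finset.sum_congr rfl fun i _ => ?_
      have e : (stl i A)⁻¹ = strr i A⁻¹ := by
        unfold stl strr
        rw [Matrix.mul_inv_rev, xg_inv]
      beta_reduce
      rw [e]

theorem UTS_det {A : MM N} (hA : A ∈ UTS N) : IsUnit A.det := by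
  rw [Matrix.det_of_isUpperTriangular (fun i j h => hA.2 i j h), Finset.prod_eq_one]
  · exact isUnit_one
  · intro i _
    exact hA.1 i

/-! the nullity theorem -/

theorem crk_nullity {a b : ℕ} (hab : a ≤ b) (hb : b ≤ N) {A : MM N} (hA : A ∈ UTS N) :
    crk b a A ≤ (b - a) + crk a b A⁻¹ := by
  have hd := UTS_det hA
  have h1 := KT_card (s := 0) (u := b) (c := a) (by omega) A
  have h2 := KT_card (s := 0) (u := a) (c := b) hb A⁻¹
  rw [trk_zero] at h1 h2
  have h3 : (KT 0 a b A⁻¹).card ≤ (KT 0 b a A).card := by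
    refine card_le_card_of_injOn (fun φ => A⁻¹ *ᵥ φ) ?_ ?_
    · intro φ hφ
      rw [mem_coe, mem_KT] at *
      obtain ⟨g1, g2⟩ := hφ
      refine ⟨?_, ?_⟩
      · intro j hj
        refine ⟨?_, j.isLt⟩
        by_contra hc
        apply hj
        have := g2 j.val (Nat.zero_le _) (by omega)
        rw [rowN_fin] at this
        exact this
      · intro m _ hm
        by_cases hmN : m < N
        · have e1 : rowN A m = A ⟨m, hmN⟩ := rowN_fin A ⟨m, hmN⟩
          rw [e1]
          have e2 : A ⟨m, hmN⟩ ⬝ᵥ (A⁻¹ *ᵥ φ) = (A *ᵥ (A⁻¹ *ᵥ φ)) ⟨m, hmN⟩ := rfl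
          rw [e2, Matrix.mulVec_mulVec, Matrix.mul_nonsing_inv _ hd, Matrix.one_mulVec]
          by_contra hc
          have := (g1 ⟨m, hmN⟩ hc).1
          simp only at this
          omega
        · have e1 : rowN A m = 0 := by
            funext j
            unfold rowN
            rw [dif_neg hmN]
            rfl
          rw [e1, zero_dotProduct]
    · intro φ _ ψ _ h
      beta_reduce at h
      have h4 := congrArg (fun v => A *ᵥ v) h
      simp only [Matrix.mulVec_mulVec, Matrix.mul_nonsing_inv _ hd, Matrix.one_mulVec] at h4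
      exact h4
  have h5 : 2 ^ crk b a A ≤ 2 ^ ((b - a) + crk a b A⁻¹) := by
    have hpos := KT_pos 0 a b A⁻¹
    have h6 : (KT 0 a b A⁻¹).card * 2 ^ crk b a A ≤ (KT 0 a b A⁻¹).card *
        2 ^ ((b - a) + crk a b A⁻¹) := by
      calc (KT 0 a b A⁻¹).card * 2 ^ crk b a A ≤ (KT 0 b a A).card * 2 ^ crk b a A :=
            Nat.mul_le_mul_right _ h3
        _ = 2 ^ (N - a) := h1
        _ = 2 ^ (b - a) * 2 ^ (N - b) := by
            rw [← pow_add]
            congr 1
            omega
        _ = 2 ^ (b - a) * ((KT 0 a b A⁻¹).card * 2 ^ crk a b A⁻¹) := by rw [h2]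
        _ = (KT 0 a b A⁻¹).card * 2 ^ ((b - a) + crk a b A⁻¹) := by
            rw [pow_add]
            ring
    exact Nat.le_of_mul_le_mul_left h6 hpos
  exact (Nat.pow_le_pow_iff_right (by norm_num)).1 h5

/-! the product -/

theorem cblk_eq (a b : ℕ) (A : MM N) : cblk a b A =
    Matrix.diagonal (fun i : Fin N => if i.val < a then (1 : ZMod 2) else 0) * A *
      Matrix.diagonal (fun j : Fin N => if b ≤ j.val then (1 : ZMod 2) else 0) := by
  funext i j
  rw [Matrix.mul_diagonal, Matrix.diagonal_mul]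
  unfold cblk
  by_cases h1 : i.val < a <;> by_cases h2 : b ≤ j.val <;> simp [h1, h2]

theorem rk_mul_crk (a b : ℕ) (B A : MM N) : rk a (B * A) ≤ crk a b B + crk b a A := by
  obtain ⟨P, hP⟩ : ∃ P : ℕ → MM N, ∀ c, P c =
    Matrix.diagonal (fun i : Fin N => if i.val < c then (1 : ZMod 2) else 0) := ⟨_, fun _ => rfl⟩
  obtain ⟨Q, hQ⟩ : ∃ Q : ℕ → MM N, ∀ c, Q c =
    Matrix.diagonal (fun i : Fin N => if c ≤ i.val then (1 : ZMod 2) else 0) := ⟨_, fun _ => rfl⟩
  have hc : ∀ a b (X : MM N), cblk a b X = P a * X * Q b := by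
    intro a b X
    rw [cblk_eq, hP, hQ]
  have h1 : ∀ c, P c + Q c = 1 := by
    intro c
    rw [hP, hQ, Matrix.diagonal_add, ← Matrix.diagonal_one]
    congr 1
    funext i
    by_cases h : i.val < c
    · have : ¬ c ≤ i.val := by omega
      simp [h]
    · have : c ≤ i.val := by omega
      simp [this]
  have h2 : ∀ c, P c * P c = P c := by
    intro c
    rw [hP, Matrix.diagonal_mul_diagonal]
    congr 1
    funext i
    by_cases h : i.val < c <;> simp [h]
  rw [← crk_diag]
  unfold crk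
  rw [hc, hc, hc]
  have h3 : P a * (B * A) * Q a = (P a * B * P b) * (P b * A * Q a) + (P a * B * Q b) * (A * Q a) := by
    have e1 : P a * (B * A) * Q a = P a * B * (P b + Q b) * A * Q a := by
      rw [h1, Matrix.mul_one, Matrix.mul_assoc (P a) B A]
    have e2 : (P a * B * P b) * (P b * A * Q a) = P a * B * (P b * P b) * A * Q a := by
      simp only [Matrix.mul_assoc]
    have e3 : (P a * B * Q b) * (A * Q a) = P a * B * Q b * A * Q a := by
      simp only [Matrix.mul_assoc]
    rw [e1, e2, e3, h2, Matrix.mul_add, Matrix.add_mul, Matrix.add_mul]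
  rw [h3]
  refine (mrank_add_le _ _).trans ?_
  rw [add_comm]
  exact add_le_add (Matrix.rank_mul_le_left _ _) (Matrix.rank_mul_le_right _ _)

theorem EE_two (s t : ℝ) (f : MM N → ℝ) :
    EE N (s + t) f = EE N s (fun A => EE N t (fun B => f (B * A))) := by
  unfold EE
  rw [Sg_semi]
  congr 1
  funext A
  exact Sg_right t f A

open Classical in
/-- **Row A2.** -/
theorem off_low (η q : ℝ) (hη : 0 < η) (hq : 0 < q) : ∃ t0 : ℝ, 0 < t0 ∧ ∀ t : ℝ, t0 ≤ t →
    ∀ N a b c : ℕ, a ≤ b → 4 * t ≤ c → c ≤ a → b + c ≤ N →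
      EE N t (fun A => if (crk a b A : ℝ) < (JJ - η) * t - ((b : ℝ) - a) / 2 then (1 : ℝ) else 0) ≤
        q := by
  obtain ⟨t0, ht0, h0⟩ := open_low η (q ^ 2) hη (by positivity)
  refine ⟨t0, ht0, ?_⟩
  intro t ht N a b c hab hc hca hN
  have htp : 0 < t := lt_of_lt_of_le ht0 ht
  have h1 := h0 (t + t) (by linarith) N a c (by linarith) hca (by omega)
  obtain ⟨ℓ, hℓ⟩ : ∃ ℓ, ℓ = (JJ - η) * t - ((b : ℝ) - a) / 2 := ⟨_, rfl⟩
  rw [← hℓ]
  obtain ⟨p, hp⟩ : ∃ p, p = EE N t (fun A => if (crk a b A : ℝ) < ℓ then (1 : ℝ) else 0) := ⟨_, rfl⟩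
  have hp0 : 0 ≤ p := by
    rw [hp]
    refine EE_nonneg htp.le fun A => ?_
    split_ifs <;> norm_num
  rw [EE_two] at h1
  have h2 : p * p ≤ EE N t (fun A => EE N t (fun B =>
      if (rk a (B * A) : ℝ) < (JJ - η) * (t + t) then (1 : ℝ) else 0)) := by
    have h3 : p * p = EE N t (fun A => p * (if (crk a b A⁻¹ : ℝ) < ℓ then (1 : ℝ) else 0)) := by
      rw [EE_mul_const, EE_inv t (fun A => if (crk a b A : ℝ) < ℓ then (1 : ℝ) else 0), ← hp]
    rw [h3]
    refine EE_mono htp.le fun A hA => ?_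
    by_cases h4 : (crk a b A⁻¹ : ℝ) < ℓ
    · rw [if_pos h4, mul_one, hp]
      refine EE_mono htp.le fun B _ => ?_
      by_cases h5 : (crk a b B : ℝ) < ℓ
      · rw [if_pos h5, if_pos]
        have h6 := rk_mul_crk a b B A
        have h7 := crk_nullity hab (by omega) hA
        have h8 : (rk a (B * A) : ℝ) ≤ crk a b B + (((b - a : ℕ) : ℝ) + crk a b A⁻¹) := by
          exact_mod_cast h6.trans (Nat.add_le_add_left h7 _)
        rw [Nat.cast_sub hab] at h8
        rw [hℓ] at h4 h5
        linarith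
      · rw [if_neg h5]
        split_ifs <;> norm_num
    · rw [if_neg h4, mul_zero]
      refine EE_nonneg htp.le fun B => ?_
      split_ifs <;> norm_num
  rw [← hp]
  have h3 := h2.trans h1
  nlinarith

end Pool.Agent.CutFull
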