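import Pool.Agent.CutFull.ClosedRight

/-!
Full cutoff, conditional part, row A1: the corner of a wide window has rank at least `(J - eta) t`.
-/

set_option autoImplicit false
set_option linter.unusedSectionVars false

namespace Pool.Agent.CutFull

open Finset Matrix Pool.Agent.Helper8.UT

variable {N : ℕ}

/-- the row `x` is not zero on the columns from `a` on -/
def RowNZ (a x : ℕ) (A : MM N) : Prop := ∃ j : Fin N, a ≤ j.val ∧ rowN A x j ≠ 0

open Classical in
/-- weighted number of rows which are not zero on the columns from `a` on -/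
noncomputable def TR (a x : ℕ) (A : MM N) : ℝ :=
  if x = a ∨ RowNZ a x A then Real.exp ((a : ℝ) - x) else 0

theorem TR_nonneg (a x : ℕ) (A : MM N) : 0 ≤ TR a x A := by
  unfold TR
  split_ifs
  · exact (Real.exp_pos _).le
  · exact le_rfl

theorem TR_step {a x : ℕ} (hx : x < a) (i : Fin N) (A : MM N) :
    TR a x (stl i A) ≤ TR a x A + if x = i.val then Real.exp 1 * TR a (x + 1) A else 0 := by
  by_cases hxi : x = i.val
  · rw [if_pos hxi]
    by_cases h1 : RowNZ a x A
    · have h2 : TR a x A = Real.exp ((a : ℝ) - x) := by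
        unfold TR
        rw [if_pos (Or.inr h1)]
      have h3 : TR a x (stl i A) ≤ Real.exp ((a : ℝ) - x) := by
        unfold TR
        split_ifs
        · exact le_rfl
        · exact (Real.exp_pos _).le
      have h4 := mul_nonneg (Real.exp_pos 1).le (TR_nonneg a (x + 1) A)
      linarith
    · by_cases h2 : x + 1 = a ∨ RowNZ a (x + 1) A
      · have h3 : Real.exp 1 * TR a (x + 1) A = Real.exp ((a : ℝ) - x) := by
          unfold TR
          rw [if_pos h2, ← Real.exp_add]
          congr 1
          push_cast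
          ring
        have h4 : TR a x (stl i A) ≤ Real.exp ((a : ℝ) - x) := by
          unfold TR
          split_ifs
          · exact le_rfl
          · exact (Real.exp_pos _).le
        rw [h3]
        have := TR_nonneg a x A
        linarith
      · rw [not_or] at h2
        have h3 : TR a x (stl i A) = 0 := by
          unfold TR
          rw [if_neg]
          rintro (h | ⟨j, hj, h⟩)
          · omega
          · apply h
            subst hxi
            rw [rowN_stl_self, Pi.add_apply]
            have e1 : rowN A i.val j = 0 := by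
              by_contra h4
              exact h1 ⟨j, hj, h4⟩
            have e2 : rowN A (i.val + 1) j = 0 := by
              by_contra h4
              exact h2.2 ⟨j, hj, h4⟩
            rw [e1, e2, add_zero]
        rw [h3]
        have := TR_nonneg a x A
        have h4 := mul_nonneg (Real.exp_pos 1).le (TR_nonneg a (x + 1) A)
        linarith
  · rw [if_neg hxi, add_zero]
    unfold TR RowNZ
    rw [rowN_stl_of_ne i A hxi]

theorem TR_last (a : ℕ) (A : MM N) : TR a a A = 1 := by
  unfold TR
  rw [if_pos (Or.inl rfl), sub_self, Real.exp_zero]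

/-- finite speed of the rows -/
theorem EE_TR (a : ℕ) {t : ℝ} (ht : 0 ≤ t) :
    EE N t (fun A => ∑ x ∈ range (a + 1), TR a x A) ≤ Real.exp (Real.exp 1 / 2 * t) := by
  have h := Sg_le_of_gen_le (Clo_univ (stl (N := N))) (fun A => ∑ x ∈ range (a + 1), TR a x A)
    (Real.exp 1 / 2) (fun A _ => ?_) t ht 1 trivial
  · unfold EE
    refine h.trans ?_
    have h1 : ∑ x ∈ range (a + 1), TR a x (1 : MM N) = 1 := by
      rw [sum_range_succ, TR_last, sum_eq_zero, zero_add]
      intro x hx
      rw [mem_range] at hx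
      unfold TR
      rw [if_neg]
      rintro (h | ⟨j, hj, h⟩)
      · omega
      · apply h
        unfold rowN
        split_ifs with h2
        · rw [Matrix.one_apply_ne]
          intro h3
          have := congrArg Fin.val h3
          simp only at this
          omega
        · rfl
    rw [h1, mul_one]
  · unfold gen
    rw [div_mul_eq_mul_div, one_mul, div_mul_eq_mul_div]
    refine div_le_div_of_nonneg_right ?_ (by norm_num)
    have h1 : ∀ i : Fin N, ∑ x ∈ range (a + 1), TR a x (stl i A) - ∑ x ∈ range (a + 1), TR a x A ≤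
        ∑ x ∈ range a, if x = i.val then Real.exp 1 * TR a (x + 1) A else 0 := by
      intro i
      rw [sum_range_succ, sum_range_succ, TR_last, TR_last]
      have h2 : ∑ x ∈ range a, TR a x (stl i A) ≤ ∑ x ∈ range a, (TR a x A +
          if x = i.val then Real.exp 1 * TR a (x + 1) A else 0) :=
        sum_le_sum fun x hx => TR_step (mem_range.1 hx) i A
      rw [sum_add_distrib] at h2
      linarith
    refine (sum_le_sum fun i _ => h1 i).trans ?_
    rw [sum_comm, mul_sum]
    have h3 : ∀ x ∈ range a, ∑ i : Fin N, (if x = i.val then Real.exp 1 * TR a (x + 1) A else 0) ≤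
        Real.exp 1 * TR a (x + 1) A := by
      intro x hx
      have h5 := mul_nonneg (Real.exp_pos 1).le (TR_nonneg a (x + 1) A)
      by_cases hxN : x < N
      · rw [sum_eq_single (⟨x, hxN⟩ : Fin N)]
        · simp
        · intro i _ hi
          rw [if_neg]
          intro h4
          exact hi (Fin.ext h4.symm)
        · intro h4
          exact absurd (mem_univ _) h4
      · rw [sum_eq_zero]
        · exact h5
        · intro i _
          rw [if_neg]
          have := i.isLt
          omega
    refine (sum_le_sum h3).trans ?_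
    rw [sum_range_succ' (fun x => Real.exp 1 * TR a x A)]
    have := mul_nonneg (Real.exp_pos 1).le (TR_nonneg a 0 A)
    linarith

open Classical in
/-- number of rows far from the cut which are not zero on the columns from `a` on -/
noncomputable def nR (a c : ℕ) (A : MM N) : ℕ := ((range a).filter fun x => x + c < a ∧ RowNZ a x A).card

theorem nR_le (a c : ℕ) (A : MM N) :
    (nR a c A : ℝ) ≤ Real.exp (-(c : ℝ)) * ∑ x ∈ range (a + 1), TR a x A := by
  classical
  unfold nR
  rw [card_eq_sum_ones, Nat.cast_sum, sum_filter, mul_sum, sum_range_succ]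
  have h0 := mul_nonneg (Real.exp_pos (-(c : ℝ))).le (TR_nonneg a a A)
  refine le_trans (sum_le_sum fun x hx => ?_) (le_add_of_nonneg_right h0)
  split_ifs with h
  · unfold TR
    rw [if_pos (Or.inr h.2), ← Real.exp_add, Nat.cast_one]
    refine Real.one_le_exp ?_
    have : (x : ℝ) + c < a := by exact_mod_cast h.1
    linarith
  · exact mul_nonneg (Real.exp_pos _).le (TR_nonneg a x A)

theorem EE_nR {a c : ℕ} {t : ℝ} (ht : 0 ≤ t) (hc : 2 * t ≤ c) :
    EE N t (fun A => (nR a c A : ℝ)) ≤ 1 := by
  have h1 : EE N t (fun A => (nR a c A : ℝ)) ≤ EE N t (fun A => Real.exp (-(c : ℝ)) *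
      ∑ x ∈ range (a + 1), TR a x A) := EE_mono ht fun A _ => nR_le a c A
  rw [EE_mul_const] at h1
  have h2 := mul_le_mul_of_nonneg_left (EE_TR (N := N) a ht) (Real.exp_pos (-(c : ℝ))).le
  rw [← Real.exp_add] at h2
  have h3 : Real.exp (-(c : ℝ) + Real.exp 1 / 2 * t) ≤ 1 := by
    refine Real.exp_le_one_iff.2 ?_
    have h4 := Real.exp_one_lt_d9
    nlinarith
  linarith

/-! the rank of the corner -/

theorem rank_le_rows (X : MM N) (p : Fin N → Prop) [DecidablePred p] (h : ∀ i, ¬ p i → ∀ j, X i j = 0) :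
    X.rank ≤ (univ.filter p).card := by
  have h1 : X = Matrix.diagonal (fun i : Fin N => if p i then (1 : ZMod 2) else 0) * X := by
    funext i j
    rw [Matrix.diagonal_mul]
    by_cases hi : p i
    · simp [hi]
    · simp [hi, h i hi j]
  rw [h1]
  refine (Matrix.rank_mul_le_left _ _).trans ?_
  rw [Matrix.rank_diagonal, Fintype.card_subtype]
  refine card_le_card fun i hi => ?_
  have hi' := (mem_filter.1 hi).2
  refine mem_filter.2 ⟨mem_univ _, ?_⟩
  by_contra hc
  exact hi' (if_neg hc)

theorem rk_flip {a : ℕ} (ha : a ≤ N) (A : MM N) : rk (N - a) (Helper8.UT.flip A) = rk a A := by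
  rw [← crk_diag, ← crk_diag, crk_flip ha ha]

theorem rk_mid_le (s n : ℕ) (h : s + n ≤ N) (a : ℕ) (A : MM N) :
    rk a (mid s n h A) ≤ rk (s + a) A := by
  unfold rk
  refine rank_ext _ _ (fun i => some ⟨s + i.val, by omega⟩) (fun i => some ⟨s + i.val, by omega⟩) ?_
  intro i j
  simp only [Option.elim]
  unfold blk mid
  by_cases h1 : i.val < a ∧ a ≤ j.val
  · rw [if_pos h1, if_pos]
    constructor
    · change s + i.val < s + a
      omega
    · change s + a ≤ s + j.val
      omega
  · rw [if_neg h1, if_neg]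
    rintro ⟨h2, h3⟩
    change s + i.val < s + a at h2
    change s + a ≤ s + j.val at h3
    apply h1
    constructor <;> omega

/-- rows which are not zero on the columns from `a` on, split into the near ones and the far ones -/
theorem rk_le_mid {a c : ℕ} (hc : c ≤ a) (hN : a + c ≤ N) (A : MM N) :
    rk a A ≤ rk c (mid (a - c) (2 * c) (by omega) A) + nR a c A +
      nR (N - a) c (Helper8.UT.flip A) := by
  classical
  obtain ⟨X, hX⟩ : ∃ X : MM N, X = fun i j => if (a - c ≤ i.val ∧ i.val < a) ∧
      (a ≤ j.val ∧ j.val < a + c) then A i j else 0 := ⟨_, rfl⟩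
  obtain ⟨Y, hY⟩ : ∃ Y : MM N, Y = fun i j => if i.val < a - c ∧ a ≤ j.val then A i j else 0 :=
    ⟨_, rfl⟩
  obtain ⟨Z, hZ⟩ : ∃ Z : MM N, Z = fun i j => if (a - c ≤ i.val ∧ i.val < a) ∧
      a + c ≤ j.val then A i j else 0 := ⟨_, rfl⟩
  have h1 : blk a A = X + Y + Z := by
    funext i j
    rw [Matrix.add_apply, Matrix.add_apply, hX, hY, hZ]
    unfold blk
    beta_reduce
    by_cases h2 : i.val < a ∧ a ≤ j.val
    · rw [if_pos h2]
      by_cases h4 : a - c ≤ i.val
      · by_cases h5 : j.val < a + c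
        · rw [if_pos ⟨⟨h4, h2.1⟩, h2.2, h5⟩, if_neg (fun h => by omega), if_neg (fun h => by omega),
            add_zero, add_zero]
        · rw [if_neg (fun h => h5 h.2.2), if_neg (fun h => by omega),
            if_pos ⟨⟨h4, h2.1⟩, not_lt.1 h5⟩, zero_add, zero_add]
      · rw [if_neg (fun h => h4 h.1.1), if_pos ⟨not_le.1 h4, h2.2⟩, if_neg (fun h => h4 h.1.1),
          zero_add, add_zero]
    · rw [if_neg h2, if_neg (fun h => h2 ⟨h.1.2, h.2.1⟩), if_neg (fun h => h2 ⟨by omega, h.2⟩),
        if_neg (fun h => h2 ⟨h.1.2, by omega⟩), add_zero, add_zero]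
  have h2 : X.rank ≤ rk c (mid (a - c) (2 * c) (by omega) A) := by
    unfold rk
    refine rank_ext _ _ (fun i => if h : a - c ≤ i.val ∧ i.val < a + c then
      some ⟨i.val - (a - c), by omega⟩ else none) (fun i => if h : a - c ≤ i.val ∧ i.val < a + c then
      some ⟨i.val - (a - c), by omega⟩ else none) ?_
    intro i j
    rw [hX]
    beta_reduce
    by_cases hi : a - c ≤ i.val ∧ i.val < a + c <;> by_cases hj : a - c ≤ j.val ∧ j.val < a + c
    · rw [dif_pos hi, dif_pos hj]
      simp only [Option.elim]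
      unfold blk mid
      have e1 : (⟨a - c + (i.val - (a - c)), by omega⟩ : Fin N) = i := by
        apply Fin.ext
        change a - c + (i.val - (a - c)) = i.val
        omega
      have e2 : (⟨a - c + (j.val - (a - c)), by omega⟩ : Fin N) = j := by
        apply Fin.ext
        change a - c + (j.val - (a - c)) = j.val
        omega
      simp only [e1, e2]
      by_cases h : (a - c ≤ i.val ∧ i.val < a) ∧ (a ≤ j.val ∧ j.val < a + c)
      · rw [if_pos h, if_pos]
        constructor <;> omega
      · rw [if_neg h, if_neg]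
        rintro ⟨h3, h4⟩
        apply h
        refine ⟨⟨hi.1, ?_⟩, ⟨?_, hj.2⟩⟩ <;> omega
    · rw [dif_pos hi, dif_neg hj, if_neg]
      · rfl
      · rintro ⟨h3, h4⟩
        omega
    · rw [dif_neg hi, if_neg]
      · rfl
      · rintro ⟨h3, h4⟩
        omega
    · rw [dif_neg hi, if_neg]
      · rfl
      · rintro ⟨h3, h4⟩
        omega
  have h3 : Y.rank ≤ nR a c A := by
    refine (rank_le_rows Y (fun i => i.val < a - c ∧ RowNZ a i.val A) ?_).trans ?_
    · intro i hi j
      rw [hY]
      beta_reduce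
      split_ifs with h
      · by_contra h4
        refine hi ⟨h.1, j, h.2, ?_⟩
        rw [rowN_fin]
        exact h4
      · rfl
    · unfold nR
      refine card_le_card_of_injOn (fun i => i.val) ?_ ?_
      · intro i hi
        have hi' := (mem_filter.1 hi).2
        refine mem_coe.2 (mem_filter.2 ⟨mem_range.2 ?_, ?_, hi'.2⟩)
        · have := hi'.1
          change i.val < a
          omega
        · have := hi'.1
          change i.val + c < a
          omega
      · intro x _ y _ hxy
        exact Fin.ext hxy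
  have h4 : Z.rank ≤ nR (N - a) c (Helper8.UT.flip A) := by
    rw [← Matrix.rank_transpose Z]
    refine (rank_le_rows Zᵀ (fun j => a + c ≤ j.val ∧ RowNZ (N - a) (N - 1 - j.val)
      (Helper8.UT.flip A)) ?_).trans ?_
    · intro j hj i
      rw [Matrix.transpose_apply, hZ]
      beta_reduce
      split_ifs with h
      · by_contra h4
        refine hj ⟨h.2, i.rev, ?_, ?_⟩
        · rw [Fin.val_rev]
          omega
        · have e1 : N - 1 - j.val = j.rev.val := by
            rw [Fin.val_rev]
            omega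
          rw [e1, rowN_fin]
          change A i.rev.rev j.rev.rev ≠ 0
          rw [Fin.rev_rev, Fin.rev_rev]
          exact h4
      · rfl
    · unfold nR
      refine card_le_card_of_injOn (fun j => N - 1 - j.val) ?_ ?_
      · intro j hj
        have hj' := (mem_filter.1 hj).2
        have h5 := hj'.1
        have h6 := j.isLt
        refine mem_coe.2 (mem_filter.2 ⟨mem_range.2 ?_, ?_, hj'.2⟩)
        · change N - 1 - j.val < N - a
          omega
        · change N - 1 - j.val + c < N - a
          omega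
      · intro x _ y _ hxy
        have h5 := x.isLt
        have h6 := y.isLt
        change N - 1 - x.val = N - 1 - y.val at hxy
        exact Fin.ext (by omega)
  unfold rk at *
  rw [h1]
  have h5 := mrank_add_le (X + Y) Z
  have h6 := mrank_add_le X Y
  omega

/-! the expected rank -/

theorem cur_mono {n a s : ℕ} (h : s + n ≤ N) {t : ℝ} (ht : 0 ≤ t) : cur n a t ≤ cur N (s + a) t := by
  unfold cur
  rw [← EE_mid s n h t (fun A => (rk a A : ℝ))]
  refine EE_mono ht fun A _ => ?_
  exact_mod_cast rk_mid_le s n h a A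

theorem cur_le_two {a c : ℕ} (hc : c ≤ a) (hN : a + c ≤ N) {t : ℝ} (ht : 0 ≤ t) (h2 : 2 * t ≤ c) :
    cur N a t ≤ cur (2 * c) c t + 2 := by
  have h3 : cur N a t ≤ EE N t (fun A => ((rk c (mid (a - c) (2 * c) (by omega) A) : ℝ) + nR a c A) +
      nR (N - a) c (Helper8.UT.flip A)) := by
    unfold cur
    refine EE_mono ht fun A _ => ?_
    exact_mod_cast rk_le_mid hc hN A
  have h4 : EE N t (fun A => ((rk c (mid (a - c) (2 * c) (by omega) A) : ℝ) + nR a c A) +
      nR (N - a) c (Helper8.UT.flip A)) = cur (2 * c) c t + EE N t (fun A => (nR a c A : ℝ)) +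
        EE N t (fun A => (nR (N - a) c A : ℝ)) := by
    unfold cur
    rw [← EE_mid (a - c) (2 * c) (by omega : a - c + 2 * c ≤ N) t (fun A => (rk c A : ℝ)),
      ← EE_flip t (fun A => (nR (N - a) c A : ℝ))]
    unfold EE
    rw [Sg_add_apply _ t (fun A : MM N => (rk c (mid (a - c) (2 * c) (by omega) A) : ℝ) +
      (nR a c A : ℝ)) (fun A => (nR (N - a) c (Helper8.UT.flip A) : ℝ)),
      Sg_add_apply _ t (fun A : MM N => (rk c (mid (a - c) (2 * c) (by omega) A) : ℝ))
        (fun A => (nR a c A : ℝ))]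
  rw [h4] at h3
  have h5 := EE_nR (N := N) (a := a) ht h2
  have h6 := EE_nR (N := N) (a := N - a) ht h2
  linarith

theorem HH_le_two {c : ℕ} {t : ℝ} (ht : 0 ≤ t) (h2 : 2 * t ≤ c) :
    HH t ≤ cur (2 * c) c t + 2 := by
  refine ciSup_le fun p => ?_
  obtain ⟨N, a⟩ := p
  change cur N a t ≤ _
  by_cases hNa : N ≤ a
  · rw [cur_zero hNa ht]
    have := cur_nonneg (2 * c) c ht
    linarith
  · have h3 : (max a c - a) + N ≤ max a c + max (N - a) c := by omega
    have h4 := cur_mono (a := a) h3 ht
    have h5 : max a c - a + a = max a c := by omega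
    rw [h5] at h4
    refine h4.trans ?_
    exact cur_le_two (by omega) (by omega) ht h2

theorem HH_ge {t : ℝ} (ht : 0 ≤ t) : JJ * t - 3 ≤ HH t := by
  have hJ := JJ_pos
  obtain ⟨k, hk⟩ : ∃ k : ℕ, k = ⌈t⌉₊ := ⟨_, rfl⟩
  have h1 : t ≤ k := by rw [hk]; exact Nat.le_ceil t
  have h2 : (k : ℝ) < t + 1 := by rw [hk]; exact Nat.ceil_lt_add_one ht
  have h3 := HH_nonneg ht
  by_cases hk0 : k = 0
  · subst hk0
    have : t = 0 := le_antisymm (by simpa using h1) ht
    rw [this] at h3 ⊢
    linarith
  · have hk1 : (0 : ℝ) < k := by exact_mod_cast Nat.pos_of_ne_zero hk0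
    have h4 := JJ_le hk0
    rw [le_div_iff₀ hk1] at h4
    have h5 := HH_add ht (show 0 ≤ (k : ℝ) - t by linarith)
    have h6 : t + ((k : ℝ) - t) = k := by ring
    rw [h6] at h5
    have h7 : HH ((k : ℝ) - t) ≤ 3 := by
      refine ciSup_le fun p => ?_
      refine (cur_le p.1 p.2 (by linarith)).trans ?_
      have h8 : Real.exp ((Real.exp 1 - 1) / 2 * ((k : ℝ) - t)) ≤ Real.exp 1 := by
        refine Real.exp_le_exp.2 ?_
        have h9 := Real.exp_one_lt_d9
        have h10 := Real.exp_one_gt_d9
        nlinarith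
      have h9 := Real.exp_one_lt_d9
      linarith
    have h8 : JJ * t ≤ JJ * k := mul_le_mul_of_nonneg_left h1 hJ.le
    linarith

/-- the expected rank of the corner of a wide window -/
theorem cur_ge {a c : ℕ} (hc : c ≤ a) (hN : a + c ≤ N) {t : ℝ} (ht : 0 ≤ t) (h2 : 2 * t ≤ c) :
    JJ * t - 5 ≤ cur N a t := by
  have h3 := HH_ge ht
  have h4 := HH_le_two ht h2
  have h5 := cur_mono (n := 2 * c) (a := c) (s := a - c) (N := N) (by omega) ht
  have h6 : a - c + c = a := by omega
  rw [h6] at h5
  linarith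

open Classical in
/-- **Row A1.** -/
theorem open_low (η q : ℝ) (hη : 0 < η) (hq : 0 < q) : ∃ t0 : ℝ, 0 < t0 ∧ ∀ t : ℝ, t0 ≤ t →
    ∀ N a c : ℕ, 2 * t ≤ c → c ≤ a → a + c ≤ N →
      EE N t (fun A => if (rk a A : ℝ) < (JJ - η) * t then (1 : ℝ) else 0) ≤ q := by
  obtain ⟨δ, hδ⟩ : ∃ δ, δ = q * η / 2 := ⟨_, rfl⟩
  have hδ0 : 0 < δ := by rw [hδ]; positivity
  obtain ⟨θ, hθ0, hθ1, C1, hUT⟩ := UT_bound δ hδ0
  obtain ⟨Kc, hKc⟩ : ∃ Kc : ℝ, Kc = 5 + Real.exp C1 / θ := ⟨_, rfl⟩
  have hK0 : 0 < Kc := by rw [hKc]; positivity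
  refine ⟨2 * Kc / (η * q), by positivity, ?_⟩
  intro t ht N a c hc hca hN
  have ht0 : 0 < t := lt_of_lt_of_le (by positivity) ht
  have hKt : 2 * Kc ≤ t * (η * q) := by
    rwa [div_le_iff₀ (by positivity)] at ht
  obtain ⟨p, hp⟩ : ∃ p, p = EE N t (fun A => if (rk a A : ℝ) < (JJ - η) * t then (1 : ℝ) else 0) :=
    ⟨_, rfl⟩
  have hp0 : 0 ≤ p := by
    rw [hp]
    refine EE_nonneg ht0.le fun A => ?_
    split_ifs <;> norm_num
  have hpt : ∀ A : MM N, (rk a A : ℝ) ≤ ((JJ + δ) * t + (-((η + δ) * t)) *
      (if (rk a A : ℝ) < (JJ - η) * t then (1 : ℝ) else 0)) +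
      (Real.exp (-(θ * ((JJ + δ) * t))) / θ) * Real.exp (θ * (rk a A : ℝ)) := by
    intro A
    have e1 : (Real.exp (-(θ * ((JJ + δ) * t))) / θ) * Real.exp (θ * (rk a A : ℝ)) =
        Real.exp (θ * ((rk a A : ℝ) - (JJ + δ) * t)) / θ := by
      rw [div_mul_eq_mul_div, ← Real.exp_add]
      congr 2
      ring
    rw [e1]
    split_ifs with h
    · have : 0 ≤ Real.exp (θ * ((rk a A : ℝ) - (JJ + δ) * t)) / θ := by positivity
      nlinarith
    · have h3 := Real.add_one_le_exp (θ * ((rk a A : ℝ) - (JJ + δ) * t))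
      have h4 : (rk a A : ℝ) - (JJ + δ) * t ≤ Real.exp (θ * ((rk a A : ℝ) - (JJ + δ) * t)) / θ := by
        rw [le_div_iff₀ hθ0]
        linarith
      linarith
  have h1 : cur N a t ≤ (JJ + δ) * t + (-((η + δ) * t)) * p +
      (Real.exp (-(θ * ((JJ + δ) * t))) / θ) * EE N t (fun A => Real.exp (θ * (rk a A : ℝ))) := by
    have h2 : cur N a t ≤ EE N t (fun A => ((JJ + δ) * t + (-((η + δ) * t)) *
      (if (rk a A : ℝ) < (JJ - η) * t then (1 : ℝ) else 0)) +
      (Real.exp (-(θ * ((JJ + δ) * t))) / θ) * Real.exp (θ * (rk a A : ℝ))) :=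
      EE_mono ht0.le fun A _ => hpt A
    refine h2.trans (le_of_eq ?_)
    rw [hp]
    unfold EE
    rw [Sg_add_apply _ t (fun A : MM N => (JJ + δ) * t + (-((η + δ) * t)) *
      (if (rk a A : ℝ) < (JJ - η) * t then (1 : ℝ) else 0))
      (fun A => (Real.exp (-(θ * ((JJ + δ) * t))) / θ) * Real.exp (θ * (rk a A : ℝ))),
      Sg_add_apply _ t (fun _ => (JJ + δ) * t), Sg_const _ t ht0.le, Sg_mul_apply, Sg_mul_apply]
  have h2 : (Real.exp (-(θ * ((JJ + δ) * t))) / θ) * EE N t (fun A => Real.exp (θ * (rk a A : ℝ))) ≤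
      Real.exp C1 / θ := by
    refine (mul_le_mul_of_nonneg_left (hUT N a t ht0.le) (by positivity)).trans (le_of_eq ?_)
    rw [div_mul_eq_mul_div, ← Real.exp_add]
    congr 2
    ring
  have h3 := cur_ge hca hN ht0.le hc
  have h4 : (η + δ) * t * p ≤ δ * t + Kc := by
    rw [hKc]
    linarith
  rw [← hp]
  by_contra hcon
  rw [not_le] at hcon
  have h5 : (η + δ) * t * q < (η + δ) * t * p := mul_lt_mul_of_pos_left hcon (by positivity)
  have h6 : 0 < δ * t * q := by positivity
  have h7 : δ * t = t * (η * q) / 2 := by rw [hδ]; ring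
  nlinarith

end Pool.Agent.CutFull
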