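import Pool.Agent.CutSeq.Start
import Pool.Agent.CutSeq.Iter
import Pool.Agent.CutSeq.Fin

/-!
Full cutoff, conditional part: Theorem B with a bound for the density in place of the bound for the
total variation distance.
-/

set_option autoImplicit false

namespace Pool.Agent.CutFull

open Finset Filter Topology Pool.Agent.CutSeq

/-- the part of the law where the density is at least `R` has weight at most `q` -/
def SoftLe (n : ℕ) (t R q : ℝ) : Prop :=
  ∑ x : Un n, (if R ≤ ct n t x * (Fintype.card (Un n) : ℝ) then ct n t x else 0) ≤ q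

open Strt in
/-- the first stage from a bound for the density at the times `a n` -/
theorem start_s (u : ℝ) (hu0 : 0 < u) (C d s₀ q₀ : ℝ) (hC : 0 < C)
    (hd : 0 < d) (hs₀ : 0 < s₀) (hq₀ : 0 < q₀) :
    ∃ q : ℝ, 0 < q ∧ ∃ N₀ : ℕ, ∀ N ≥ N₀, ∀ (B L : ℕ), B = 4 * N →
      ∀ a : ℕ → ℝ, (∀ n ≤ 3 * N, 0 ≤ a n ∧ a n ≤ C * N ∧
          SoftLe n (a n) (Real.exp (s₀ / 18 * ((3 * N : ℕ) : ℝ) ^ 2)) q) →
        ∃ Λ : ℕ → ℝ, 0 < Λ 0 ∧ (∀ n, Λ n + B / u ≤ Λ (n + 1)) ∧
          (∀ n ≤ 2 * N, ∀ τ : ℝ, (∀ n' : ℕ, (n' : ℝ) ≤ n + d * N →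
              a n' + ((n : ℝ) + d * N - n') / u ≤ τ) → Λ n ≤ B * (τ + d * N)) ∧
          ∃ G : ℕ → ℕ → Set (Wd B L), Fam B L Λ 0 0 (2 * N) (s₀ * N ^ 2) q₀ G := by
  -- constants
  set d₁ : ℝ := min d 1 with hd₁
  have hd₁0 : 0 < d₁ := lt_min hd one_pos
  have hd₁1 : d₁ ≤ 1 := min_le_right _ _
  have hd₁d : d₁ ≤ d := min_le_left _ _
  set q : ℝ := q₀ / (8 * (16 / d₁ + 3)) with hq
  have hq0 : 0 < q := by positivity
  refine ⟨q, hq0, max 0 (max (Nat.ceil (8 / d₁)) (max (Nat.ceil ((1 + 3 * (1 + C)) / (4 * d)))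
    (Nat.ceil (2 * (72 * (1 + C) + 1) / s₀)))) + 1, ?_⟩
  intro N hN B L hBN a ha
  have hN0 : 1 ≤ N := by omega
  have hNR : (1 : ℝ) ≤ N := by exact_mod_cast hN0
  have hN2 : 8 / d₁ ≤ N := by
    have h1 : Nat.ceil (8 / d₁) ≤ N := by omega
    exact (Nat.le_ceil _).trans (by exact_mod_cast h1)
  have hN3 : (1 + 3 * (1 + C)) / (4 * d) ≤ N := by
    have h1 : Nat.ceil ((1 + 3 * (1 + C)) / (4 * d)) ≤ N := by omega
    exact (Nat.le_ceil _).trans (by exact_mod_cast h1)
  have hN4 : 2 * (72 * (1 + C) + 1) / s₀ ≤ N := by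
    have h1 : Nat.ceil (2 * (72 * (1 + C) + 1) / s₀) ≤ N := by omega
    exact (Nat.le_ceil _).trans (by exact_mod_cast h1)
  have hB : 0 < B := by omega
  have hBR : (B : ℝ) = 4 * N := by
    rw [hBN]
    push_cast
    ring
  -- the grid
  set g : ℕ := Nat.ceil (d₁ * N / 8) with hg
  have hdN : 8 ≤ d₁ * N := by
    rw [div_le_iff₀ hd₁0] at hN2
    linarith
  have hg0 : 0 < g := Nat.ceil_pos.2 (by positivity)
  have hg1 : d₁ * N / 8 ≤ g := Nat.le_ceil _
  have hg2 : (g : ℝ) < d₁ * N / 8 + 1 := Nat.ceil_lt_add_one (by positivity)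
  have hg3 : (g : ℝ) ≤ d₁ * N / 4 := by linarith
  have hgN : g ≤ N := by
    have : (g : ℝ) ≤ N := by nlinarith
    exact_mod_cast this
  set cm : ℕ := (2 * N + g - 1) / g with hcm
  have hcm1 : 2 * N < cm * g + 1 := by
    have h1 := Nat.div_add_mod (2 * N + g - 1) g
    have h2 := Nat.mod_lt (2 * N + g - 1) hg0
    rw [← hcm, mul_comm] at h1
    omega
  have hcm2 : cm * g ≤ 2 * N + g - 1 := Nat.div_mul_le_self _ _
  have hcm3 : ((cm : ℝ) + 1) ≤ 16 / d₁ + 3 := by
    have h1 : (cm : ℝ) * g ≤ 2 * N + g := by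
      have : cm * g ≤ 2 * N + g := by omega
      exact_mod_cast this
    have hgR : (0 : ℝ) < g := by exact_mod_cast hg0
    have h2 : (cm : ℝ) ≤ 2 * N / g + 1 := by
      rw [← sub_le_iff_le_add, le_div_iff₀ hgR]
      linarith
    have h3 : 2 * (N : ℝ) / g ≤ 16 / d₁ := by
      rw [div_le_div_iff₀ hgR hd₁0]
      linarith
    linarith
  -- the window
  set W : ℝ := 3 * (1 + C) * N with hW
  have hW1 : 1 ≤ W := by
    have h1 : (0 : ℝ) ≤ C * N := by positivity
    have h2 : W = 3 * N + 3 * (C * N) := by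
      rw [hW]
      ring
    rw [h2]
    linarith
  set R : ℝ := Real.exp (s₀ / 18 * ((3 * N : ℕ) : ℝ) ^ 2) with hR
  have hR1 : 1 ≤ R := Real.one_le_exp (by positivity)
  have hpick : ∀ c : ℕ, ∃ (S : ℕ) (bad : Set (Un (c * g))), c ≤ cm →
      |(S : ℝ) - B * a (c * g)| ≤ W ∧
      (∀ L, S ≤ L → pr (uw B L) {ω | mm (ext ω) S (c * g) ∈ bad} ≤ 4 * q) ∧
      ∀ x ∉ bad, lw B S (c * g) x * (Fintype.card (Un (c * g)) : ℝ) ≤ 12 * W * R := by
    intro c
    by_cases hc : c ≤ cm
    · have hcg : c * g ≤ 3 * N := by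
        have : c * g ≤ cm * g := Nat.mul_le_mul_right g hc
        omega
      obtain ⟨ha1, ha2, h1⟩ := ha (c * g) hcg
      have h2 : 8 * ((B : ℝ) * a (c * g)) ≤ W ^ 2 := by
        have h3 : 8 * ((B : ℝ) * a (c * g)) ≤ 32 * C * N ^ 2 := by
          rw [hBR]
          have : (N : ℝ) * a (c * g) ≤ N * (C * N) := mul_le_mul_of_nonneg_left ha2 (by positivity)
          nlinarith
        have h4 : W ^ 2 = 9 * (1 + C) ^ 2 * N ^ 2 := by
          rw [hW]
          ring
        have h5 : 32 * C ≤ 9 * (1 + C) ^ 2 := by nlinarith [sq_nonneg (1 - C)]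
        rw [h4]
        exact h3.trans (mul_le_mul_of_nonneg_right h5 (by positivity))
      obtain ⟨S, bad, h3, h4, h5⟩ := level_pick (B := B) (n := c * g) hB (by omega) ha1 hW1 h2 hq0 h1
      exact ⟨S, bad, fun _ => ⟨h3, h4, h5⟩⟩
    · exact ⟨0, ∅, fun h => absurd h hc⟩
  choose S bad hS using hpick
  have hfam := core (L := L) (N := N) (g := g) (cm := cm) hB u hg0 hcm1 q (12 * W * R) hq0.le
    (by nlinarith) S bad (fun c hc => (hS c hc).2.1) (fun c hc => (hS c hc).2.2)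
  refine ⟨lam (fun n => 1 + (S ((n + g - 1) / g) : ℝ)) (B / u), ?_, ?_, ?_, stEv cm S bad, ?_⟩
  · simp only [lam]
    positivity
  · intro n
    exact lam_step _ _ n
  · intro n hn τ hτ
    obtain ⟨n', hn', hlam⟩ := lam_ex (fun n => 1 + (S ((n + g - 1) / g) : ℝ)) (B / u) n
    rw [hlam]
    set c := (n' + g - 1) / g with hc
    have h1 : n' ≤ c * g := by
      have h1 := Nat.div_add_mod (n' + g - 1) g
      have h2 := Nat.mod_lt (n' + g - 1) hg0
      rw [← hc, mul_comm] at h1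
      omega
    have h2 : c * g ≤ n' + g - 1 := Nat.div_mul_le_self _ _
    have hcc : c ≤ cm := by
      by_contra hcon
      push Not at hcon
      have h1 : (cm + 1) * g ≤ c * g := Nat.mul_le_mul_right g hcon
      have h3 : (cm + 1) * g = cm * g + g := by ring
      omega
    have h3 := (hS c hcc).1
    have h4 : (S c : ℝ) ≤ B * a (c * g) + W := by
      have := (abs_le.1 h3).2
      linarith
    have h2R : ((c * g : ℕ) : ℝ) ≤ n' + g := by
      have : c * g ≤ n' + g := by omega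
      exact_mod_cast this
    have hn'R : (n' : ℝ) ≤ n := by exact_mod_cast hn'
    have hgd : (g : ℝ) ≤ d * N := by
      have h5 : d₁ * N ≤ d * N := mul_le_mul_of_nonneg_right hd₁d (by positivity)
      linarith
    have h5 := hτ (c * g) (by linarith)
    have h6 : ((n : ℝ) - n') / u ≤ ((n : ℝ) + d * N - ((c * g : ℕ) : ℝ)) / u :=
      div_le_div_of_nonneg_right (by linarith) hu0.le
    have h7 : ((n : ℝ) - n') * (B / u) ≤ B * (((n : ℝ) + d * N - ((c * g : ℕ) : ℝ)) / u) := by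
      calc ((n : ℝ) - n') * (B / u) = B * (((n : ℝ) - n') / u) := by ring
        _ ≤ _ := mul_le_mul_of_nonneg_left h6 (by positivity)
    have h8 : B * (a (c * g) + ((n : ℝ) + d * N - ((c * g : ℕ) : ℝ)) / u) ≤ B * τ :=
      mul_le_mul_of_nonneg_left h5 (by positivity)
    have h9 : 1 + W ≤ B * (d * N) := by
      rw [div_le_iff₀ (by positivity)] at hN3
      have h10 : 1 + W ≤ (1 + 3 * (1 + C)) * N := by
        rw [hW]
        nlinarith
      have h11 : (1 + 3 * (1 + C)) * N ≤ (N * (4 * d)) * N :=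
        mul_le_mul_of_nonneg_right hN3 (by positivity)
      rw [hBR]
      nlinarith
    have h12 : (B : ℝ) * (τ + d * N) = B * τ + B * (d * N) := by ring
    rw [h12]
    have h13 : (B : ℝ) * (a (c * g) + ((n : ℝ) + d * N - ((c * g : ℕ) : ℝ)) / u) =
      B * a (c * g) + B * (((n : ℝ) + d * N - ((c * g : ℕ) : ℝ)) / u) := by ring
    rw [h13] at h8
    linarith
  · refine ⟨hfam.lev, hfam.anti, hfam.loss.trans ?_, fun n l hl hr => (hfam.ent n l hl hr).trans ?_⟩
    · have h1 : ((cm : ℝ) + 1) * (8 * q) ≤ (16 / d₁ + 3) * (8 * q) :=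
        mul_le_mul_of_nonneg_right hcm3 (by positivity)
      refine h1.trans (le_of_eq ?_)
      rw [hq]
      have : 16 / d₁ + 3 ≠ 0 := by positivity
      field_simp
    · have hWp : 0 < W := by linarith
      have hRp : 0 < R := by linarith
      have h1 : Real.log (2 * (12 * W * R)) = Real.log (24 * W) + s₀ / 18 * ((3 * N : ℕ) : ℝ) ^ 2 := by
        rw [show 2 * (12 * W * R) = 24 * W * R by ring, Real.log_mul (by positivity) (by positivity),
          hR, Real.log_exp]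
      have h2 : Real.log (24 * W) ≤ 24 * W := (Real.log_le_sub_one_of_pos (by positivity)).trans
        (by linarith)
      have h3 : s₀ / 18 * ((3 * N : ℕ) : ℝ) ^ 2 = s₀ / 2 * N ^ 2 := by
        push_cast
        ring
      rw [h1, h3]
      rw [div_le_iff₀ hs₀] at hN4
      have h4 : 24 * W + 1 ≤ (72 * (1 + C) + 1) * N := by
        rw [hW]
        nlinarith
      have h5 : 2 * (72 * (1 + C) + 1) * N ≤ N * s₀ * N := mul_le_mul_of_nonneg_right hN4 (by positivity)
      nlinarith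

/-- Theorem B at one value of the bound -/
theorem thmB_s (u : ℝ) (hu0 : 0 < u) (hu : u < Pool.Agent.UTM.Es.vv) (C d e : ℝ) (hC : 0 < C)
    (hd : 0 < d) (hd1 : d ≤ 1) (he : 0 < e) (C' : ℝ) (hC' : 1 ≤ C') :
    ∃ s : ℝ, 0 < s ∧ ∃ q : ℝ, 0 < q ∧ ∃ N₀ : ℕ, ∀ N ≥ N₀, ∀ a : ℕ → ℝ, (∀ n ≤ 3 * N, 0 ≤ a n ∧ a n ≤ C * N ∧
        SoftLe n (a n) (Real.exp (s * ((3 * N : ℕ) : ℝ) ^ 2)) q) →
      ∀ τ : ℝ, 0 ≤ τ → τ ≤ C' * N →
        (∀ n' : ℕ, (n' : ℝ) ≤ (1 + d) * N → a n' + ((1 + d) * N - n') / u ≤ τ) →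
        dd N (τ + d * N) ≤ e := by
  obtain ⟨c, hc0, hc⟩ := gap
  -- constants
  set e₀ : ℝ := (min (c * d / 2) (e / 8)) ^ 2 with he₀
  have hm0 : 0 < min (c * d / 2) (e / 8) := lt_min (by positivity) (by positivity)
  set ρ : ℝ := min (c * d / 2) (e / 8) with hρ
  have he₀0 : 0 < e₀ := by rw [he₀]; positivity
  have hd16 : 0 < d / 16 := by positivity
  obtain ⟨s₀, hs₀, q₀, hq₀, N₁, hiter⟩ := iteration u hu0 hu (C' + 2) (by linarith) e₀ (d / 16)
    (e / 4) he₀0 hd16 (by positivity)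
  obtain ⟨q₁, hq₁, N₂, hstart⟩ := start_s u hu0 C (d / 16) s₀ q₀ hC hd16 hs₀ hq₀
  -- limits
  have hlim1 : ∀ᶠ N : ℕ in atTop, 4 * (C' + 1) / (d ^ 2 * (N : ℝ) ^ 2) ≤ e / 8 := by
    have h1 : Tendsto (fun N : ℕ => 4 * (C' + 1) / (d ^ 2 * (N : ℝ) ^ 2)) atTop (𝓝 0) := by
      apply Tendsto.div_atTop tendsto_const_nhds
      apply Tendsto.const_mul_atTop (by positivity)
      exact (tendsto_pow_atTop (by norm_num)).comp tendsto_natCast_atTop_atTop
    exact h1.eventually_le_const (by positivity)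
  have hlim2 : ∀ᶠ N : ℕ in atTop, 1 / (ρ * (N : ℝ)) ≤ e / 8 := by
    have h1 : Tendsto (fun N : ℕ => 1 / (ρ * (N : ℝ))) atTop (𝓝 0) := by
      apply Tendsto.div_atTop tendsto_const_nhds
      exact Tendsto.const_mul_atTop (by positivity) tendsto_natCast_atTop_atTop
    exact h1.eventually_le_const (by positivity)
  have hlim3 : ∀ᶠ N : ℕ in atTop, Real.exp (-(c * d / 4 * (N : ℝ))) ≤ e / 8 := by
    have h1 : Tendsto (fun N : ℕ => Real.exp (-(c * d / 4 * (N : ℝ)))) atTop (𝓝 0) := by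
      apply Real.tendsto_exp_neg_atTop_nhds_zero.comp
      exact Tendsto.const_mul_atTop (by positivity) tendsto_natCast_atTop_atTop
    exact h1.eventually_le_const (by positivity)
  have hlim4 : ∀ᶠ N : ℕ in atTop, 2 / d ≤ (N : ℝ) :=
    tendsto_natCast_atTop_atTop.eventually_ge_atTop _
  obtain ⟨N₃, hN₃⟩ := eventually_atTop.1 (hlim1.and (hlim2.and (hlim3.and hlim4)))
  refine ⟨s₀ / 18, by positivity, q₁, hq₁, max (max N₁ N₂) (max N₃ 1), ?_⟩
  intro N hN a ha τ hτ0 hτC hτ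
  have hNN₁ : N₁ ≤ N := le_trans (le_trans (le_max_left _ _) (le_max_left _ _)) hN
  have hNN₂ : N₂ ≤ N := le_trans (le_trans (le_max_right _ _) (le_max_left _ _)) hN
  have hNN₃ : N₃ ≤ N := le_trans (le_trans (le_max_left _ _) (le_max_right _ _)) hN
  have hN1 : 1 ≤ N := le_trans (le_trans (le_max_right _ _) (le_max_right _ _)) hN
  obtain ⟨hl1, hl2, hl3, hl4⟩ := hN₃ N hNN₃
  have hNR : (1 : ℝ) ≤ N := by exact_mod_cast hN1
  have hNpos : (0 : ℝ) < N := by linarith
  have hdN : 2 ≤ d * N := by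
    rw [div_le_iff₀ hd] at hl4
    linarith
  -- the system
  set B : ℕ := 4 * N with hBdef
  have hBR : (B : ℝ) = 4 * N := by rw [hBdef]; push_cast; ring
  have hB0 : 0 < B := by omega
  have hBR0 : (0 : ℝ) < B := by exact_mod_cast hB0
  set L : ℕ := ⌈(B : ℝ) * (τ + d / 8 * N)⌉₊ with hL
  have hLle : (L : ℝ) ≤ (C' + 2) * N * B := by
    have h1 : (L : ℝ) < B * (τ + d / 8 * N) + 1 := Nat.ceil_lt_add_one (by positivity)
    have h2 : (B : ℝ) * (τ + d / 8 * N) ≤ B * (C' * N + 1 / 8 * N) := by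
      apply mul_le_mul_of_nonneg_left _ hBR0.le
      have : d / 8 * N ≤ 1 / 8 * N := by
        apply mul_le_mul_of_nonneg_right _ hNpos.le
        linarith
      linarith
    have h3 : (1 : ℝ) ≤ B * N := by
      have : (1 : ℝ) ≤ B := by exact_mod_cast hB0
      nlinarith
    nlinarith
  obtain ⟨Λ, hΛ0, hΛ, hΛle, G, hG⟩ := hstart N hNN₂ B L hBdef a ha
  obtain ⟨r, y, q, G', hr0, hr, hy, hq, hG'⟩ := hiter N hNN₁ B L hBdef hLle Λ hΛ0 hΛ G hG
  -- the final time in letters
  have hyR : (y : ℝ) ≤ d / 16 * N := hy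
  have hyN : y ≤ N := by
    have : (y : ℝ) ≤ N := by nlinarith
    exact_mod_cast this
  have hΛN : Λ (N + y) ≤ B * (τ + d / 16 * N) := by
    apply hΛle (N + y) (by omega) τ
    intro n' hn'
    push_cast at hn' ⊢
    have hle : (N : ℝ) + y + d / 16 * N ≤ (1 + d) * N := by nlinarith
    have h1 := hτ n' (le_trans hn' hle)
    have h2 : ((N : ℝ) + y + d / 16 * N - n') / u ≤ ((1 + d) * N - n') / u := by
      apply div_le_div_of_nonneg_right _ hu0.le
      linarith
    linarith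
  set l : ℕ := ⌈Λ (N + y) + r⌉₊ with hl
  have hΛmono : ∀ n, 0 < Λ n := by
    intro n
    induction n with
    | zero => exact hΛ0
    | succ n ih =>
        have := hΛ n
        have : 0 < (B : ℝ) / u := by positivity
        linarith [hΛ n]
  have hΛr : Λ (N + y) + r ≤ B * (τ + d / 8 * N) := by
    have : d / 16 * N * B + B * (τ + d / 16 * N) = B * (τ + d / 8 * N) := by ring
    linarith
  have hlL : l ≤ L := Nat.ceil_mono hΛr
  have hreg : Reg Λ r y (2 * N) N l := by
    refine ⟨Nat.le_ceil _, by omega⟩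
  have hK := hG'.ent N l hlL hreg
  have hloss : pr (uw B L) (G' N l)ᶜ ≤ e / 4 := by
    refine le_trans ?_ (le_trans hG'.loss hq)
    unfold pr tot ind
    apply Finset.sum_le_sum
    intro ω _
    apply Set.indicator_le_indicator_of_subset
    · intro ω' hω'
      exact ⟨N, l, hlL, hreg, hω'⟩
    · intro ω'
      unfold uw
      positivity
  have hpast : Past l (G' N l) := (hG'.lev N l hlL).past
  have hfin := finish c hc B L N l hB0 (by omega) hlL (G' N l) hpast (e₀ * N) (e / 4) (ρ * N)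
    hK hloss (by positivity) (τ + d / 2 * N) (d / 2 * N) (by positivity) (by positivity)
  have hts : τ + d / 2 * N + d / 2 * N = τ + d * N := by ring
  rw [hts] at hfin
  refine le_trans hfin ?_
  -- the tail
  have htail : ∑ j ∈ range l, pois (B * (τ + d / 2 * N)) j ≤ e / 8 := by
    have hW : 0 < (B : ℝ) * (d / 4 * N) := by positivity
    have h1 := pois_tail (x := B * (τ + d / 2 * N)) (W := B * (d / 4 * N)) (by positivity) hW (range l)
      (by
        intro j hj
        have hj1 : j < l := Finset.mem_range.mp hj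
        have hj2 : (j : ℝ) < Λ (N + y) + r := by
          rw [hl] at hj1
          exact Nat.lt_ceil.mp hj1
        have hj3 : (j : ℝ) ≤ B * (τ + d / 8 * N) := by linarith
        rw [abs_sub_comm]
        apply le_trans _ (le_abs_self _)
        have h4 : (B : ℝ) * (d / 4 * N) + B * (τ + d / 8 * N) ≤ B * (τ + d / 2 * N) := by
          rw [← mul_add]
          apply mul_le_mul_of_nonneg_left _ hBR0.le
          have : 0 ≤ d * N := by positivity
          linarith
        linarith)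
    refine le_trans h1 (le_trans ?_ hl1)
    rw [div_le_div_iff₀ (by positivity) (by positivity)]
    have h5 : τ + d / 2 * N ≤ (C' + 1) * N := by nlinarith
    have h6 : (B : ℝ) * (τ + d / 2 * N) * (d ^ 2 * (N : ℝ) ^ 2)
        ≤ B * ((C' + 1) * N) * (d ^ 2 * (N : ℝ) ^ 2) := by
      apply mul_le_mul_of_nonneg_right _ (by positivity)
      exact mul_le_mul_of_nonneg_left h5 hBR0.le
    refine le_trans h6 ?_
    rw [hBR]
    have h7 : 4 * (C' + 1) * (4 * (N : ℝ) * (d / 4 * N)) ^ 2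
        = 4 * N * ((C' + 1) * N) * (d ^ 2 * (N : ℝ) ^ 2) := by ring
    rw [h7]
  -- truncation
  have htr : (e₀ * N + 1) / (ρ * N) ≤ e / 8 + e / 8 := by
    have h1 : (e₀ * N + 1) / (ρ * N) = ρ + 1 / (ρ * N) := by
      rw [he₀]
      field_simp
    rw [h1]
    have h2 : ρ ≤ e / 8 := min_le_right _ _
    linarith
  -- the exponential
  have hexp : Real.exp (ρ * N / 2 - c * (d / 2 * N)) ≤ e / 8 := by
    refine le_trans (Real.exp_le_exp.mpr ?_) hl3
    have h1 : ρ ≤ c * d / 2 := min_le_left _ _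
    have h2 : ρ * N ≤ c * d / 2 * N := mul_le_mul_of_nonneg_right h1 hNpos.le
    have : 0 ≤ c * d * N := by positivity
    linarith
  linarith


theorem SoftLe.mono {n : ℕ} {t R R' q : ℝ} (ht : 0 ≤ t) (hR : R ≤ R') (h : SoftLe n t R q) :
    SoftLe n t R' q := by
  unfold SoftLe at *
  refine le_trans (Finset.sum_le_sum fun x _ => ?_) h
  have h0 : 0 ≤ ct n t x := by
    rw [ct_eq_tr]
    exact tr_nonneg n ht _ _
  by_cases h1 : R' ≤ ct n t x * (Fintype.card (Un n) : ℝ)
  · rw [if_pos h1, if_pos (hR.trans h1)]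
  · rw [if_neg h1]
    split_ifs
    · exact h0
    · exact le_rfl

theorem ct_le_one (n : ℕ) {t : ℝ} (ht : 0 ≤ t) (x : Un n) : ct n t x ≤ 1 := by
  rw [ct_eq_tr, ← tr_sum n t 0]
  exact Finset.single_le_sum (f := fun x => tr n t 0 x) (fun y _ => tr_nonneg n ht _ _)
    (Finset.mem_univ x)

theorem SoftLe.of_large {n : ℕ} {t R q : ℝ} (ht : 0 ≤ t) (hq : 0 ≤ q)
    (hR : (Fintype.card (Un n) : ℝ) < R) : SoftLe n t R q := by
  unfold SoftLe
  refine le_trans (le_of_eq ?_) hq
  apply Finset.sum_eq_zero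
  intro x _
  rw [if_neg]
  rw [not_le]
  refine lt_of_le_of_lt ?_ hR
  have h1 := ct_le_one n ht x
  have h2 : (0 : ℝ) ≤ Fintype.card (Un n) := Nat.cast_nonneg _
  calc ct n t x * (Fintype.card (Un n) : ℝ) ≤ 1 * (Fintype.card (Un n) : ℝ) :=
        mul_le_mul_of_nonneg_right h1 h2
    _ = _ := one_mul _

theorem card_Un_mono {n n' : ℕ} (h : n ≤ n') :
    (Fintype.card (Un n) : ℝ) ≤ (Fintype.card (Un n') : ℝ) := by
  rw [card_Un, card_Un]
  push_cast
  apply pow_le_pow_right₀ (by norm_num)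
  apply Nat.div_le_div_right
  exact Nat.mul_le_mul h (by omega)

/-- the upper bound for the mixing time from the bound for the density -/
theorem dd_upper (J : ℝ) (hJ : 0 < J)
    (hsoft : ∀ δ σ q : ℝ, 0 < δ → 0 < σ → 0 < q → ∀ᶠ n : ℕ in atTop,
      SoftLe n ((1 + δ) * n / (2 * J)) (Real.exp (σ * (n : ℝ) ^ 2)) q)
    (e δ : ℝ) (he : 0 < e) (hδ : 0 < δ) :
    ∀ᶠ N : ℕ in atTop, dd N ((1 + δ) * max (1 / (2 * J)) (16 / 3) * N) ≤ e := by
  set m : ℝ := max (1 / (2 * J)) (16 / 3) with hm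
  have hm1 : 16 / 3 ≤ m := le_max_right _ _
  have hm2 : 1 / (2 * J) ≤ m := le_max_left _ _
  have hm0 : 0 < m := by linarith
  set d : ℝ := min 1 (δ / 4) with hd
  have hd0 : 0 < d := lt_min one_pos (by positivity)
  have hd1 : d ≤ 1 := min_le_left _ _
  have hdδ : 4 * d ≤ δ := by
    have : d ≤ δ / 4 := min_le_right _ _
    linarith
  set u : ℝ := 1 / (16 / 3 + d) with hu
  have hu0 : 0 < u := by positivity
  have huv : u < Pool.Agent.UTM.Es.vv := by
    refine lt_of_lt_of_le ?_ Pool.Agent.UTM.Es.vv_ge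
    rw [hu, div_lt_div_iff₀ (by positivity) (by norm_num)]
    linarith
  obtain ⟨s, hs, q, hq, N₀, hN₀⟩ := thmB_s u hu0 huv (3 / J) d e (by positivity) hd0 hd1 he
    (4 * (m + 1)) (by linarith)
  obtain ⟨n₀, hn₀⟩ := eventually_atTop.1 (hsoft d s q hd0 hs hq)
  have hbig : ∀ᶠ N : ℕ in atTop, (Fintype.card (Un n₀) : ℝ) < Real.exp (s * ((3 * N : ℕ) : ℝ) ^ 2) := by
    have h1 : Tendsto (fun N : ℕ => Real.exp (s * ((3 * N : ℕ) : ℝ) ^ 2)) atTop atTop := by
      apply Real.tendsto_exp_atTop.comp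
      apply Tendsto.const_mul_atTop hs
      apply (tendsto_pow_atTop (by norm_num)).comp
      apply tendsto_natCast_atTop_atTop.comp
      exact tendsto_id.const_mul_atTop' (by norm_num)
    exact h1.eventually_gt_atTop _
  filter_upwards [hbig, eventually_ge_atTop N₀] with N hNb hNN₀
  have hNR : (0 : ℝ) ≤ N := Nat.cast_nonneg N
  have h1 := hN₀ N hNN₀ (fun n => (1 + d) * n / (2 * J)) (by
    intro n hn
    have hnR : (n : ℝ) ≤ 3 * N := by exact_mod_cast hn
    have ha0 : 0 ≤ (1 + d) * (n : ℝ) / (2 * J) := by positivity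
    refine ⟨ha0, ?_, ?_⟩
    · have e1 : (1 + d) * (n : ℝ) ≤ 2 * (3 * N) :=
        mul_le_mul (by linarith) hnR (Nat.cast_nonneg n) (by norm_num)
      calc (1 + d) * (n : ℝ) / (2 * J) ≤ 2 * (3 * N) / (2 * J) :=
            div_le_div_of_nonneg_right e1 (by positivity)
        _ = 3 / J * N := by
            field_simp
    · by_cases hnn : n₀ ≤ n
      · refine (hn₀ n hnn).mono ha0 ?_
        apply Real.exp_le_exp.mpr
        apply mul_le_mul_of_nonneg_left _ hs.le
        apply pow_le_pow_left₀ (Nat.cast_nonneg n)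
        exact_mod_cast hn
      · refine SoftLe.of_large ha0 hq.le (lt_of_le_of_lt (card_Un_mono ?_) hNb)
        omega)
    ((1 + d) * (m + d) * ((1 + d) * N)) (by positivity) (by
      have e1 : (1 + d) * (m + d) * (1 + d) ≤ 4 * (m + 1) := by
        have e2 : (1 + d) * (m + d) ≤ 2 * (m + 1) := mul_le_mul (by linarith) (by linarith)
          (by positivity) (by norm_num)
        have e3 : (1 + d) * (m + d) * (1 + d) ≤ 2 * (m + 1) * 2 := mul_le_mul e2 (by linarith)
          (by positivity) (by positivity)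
        linarith
      calc (1 + d) * (m + d) * ((1 + d) * N) = (1 + d) * (m + d) * (1 + d) * N := by ring
        _ ≤ _ := mul_le_mul_of_nonneg_right e1 hNR) (by
      intro n' hn'
      have hn0 : (0 : ℝ) ≤ n' := Nat.cast_nonneg n'
      have e1 : (1 + d) * (n' : ℝ) / (2 * J) ≤ (1 + d) * (m + d) * n' := by
        have e2 : (1 + d) * (n' : ℝ) / (2 * J) = (1 + d) * (1 / (2 * J)) * n' := by
          ring
        rw [e2]
        apply mul_le_mul_of_nonneg_right _ hn0
        apply mul_le_mul_of_nonneg_left _ (by positivity)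
        linarith
      have e3 : ((1 + d) * (N : ℝ) - n') / u = ((1 + d) * N - n') * (16 / 3 + d) := by
        rw [hu, div_div_eq_mul_div, div_one]
      have e4 : ((1 + d) * (N : ℝ) - n') * (16 / 3 + d) ≤ ((1 + d) * N - n') * ((1 + d) * (m + d)) := by
        apply mul_le_mul_of_nonneg_left _ (by linarith)
        nlinarith
      change (1 + d) * (n' : ℝ) / (2 * J) + ((1 + d) * (N : ℝ) - n') / u ≤ _
      rw [e3]
      calc _ ≤ (1 + d) * (m + d) * n' + ((1 + d) * N - n') * ((1 + d) * (m + d)) := add_le_add e1 e4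
        _ = _ := by ring)
  refine le_trans (dd_antitone N (by positivity) ?_) h1
  have e5 : (1 + d) * (m + d) * (1 + d) + d ≤ (1 + δ) * m := by
    have e6 : (1 + d) * (1 + d) ≤ 1 + 3 * d := by nlinarith
    have e7 : (1 + d) * (m + d) * (1 + d) ≤ (1 + 3 * d) * (m + d) := by
      have := mul_le_mul_of_nonneg_right e6 (show 0 ≤ m + d by positivity)
      nlinarith
    nlinarith
  calc (1 + d) * (m + d) * ((1 + d) * N) + d * N = ((1 + d) * (m + d) * (1 + d) + d) * N := by ring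
    _ ≤ (1 + δ) * m * N := mul_le_mul_of_nonneg_right e5 hNR

end Pool.Agent.CutFull
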