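import Pool.Agent.CutFull.Defs
import Pool.Agent.CutFull.Final

/-!
Full cutoff, conditional part: the bound for the density in matrix coordinates, on the event that all
corners have nearly the generic rank.
-/

set_option autoImplicit false

namespace Pool.Agent.CutFull

open Filter Topology Pool.Agent.CutSeq
open Pool.Agent.Helper8.UT (MM EE pm JJ UTS EE_mono EE_add Sg_sum_apply Sg_mul_apply pm_nonneg)

/-- transition matrix of the jump chain -/
noncomputable def Kc (n : ℕ) : Matrix (Matrix (Fin n) (Fin n) (ZMod 2)) (Matrix (Fin n) (Fin n) (ZMod 2)) ℝ :=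
  fun A B => (1 / 2 : ℝ) * (if B = A then 1 else 0)
          + (1 / (2 * ((n : ℝ) - 1))) *
            ∑ i : Fin n, ∑ j : Fin n,
              (if j.val = i.val + 1 ∧ B = A.updateRow i (A i + A j) then (1 : ℝ) else 0)

theorem ct_eq_pm {n : ℕ} (hn : 2 ≤ n) (t : ℝ) (x : Un n) : ct n t x = pm n t (toMat n x) := by
  have hK : Pool.Agent.UTM.IsKernel Kc := fun _ _ _ => rfl
  have h1 := Pool.Agent.UTM.Es.law_eq (K := Kc) hK n hn t 1 (toMat n x)
  rw [← Pool.Agent.Helper8.UT.frozen_series hn (Kc n) (fun _ _ => rfl) t (toMat n x)]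
  unfold ct
  rw [← h1]
  rfl

theorem EE_expand (n : ℕ) (t : ℝ) (f : MM n → ℝ) : EE n t f = ∑ B : MM n, pm n t B * f B := by
  classical
  have h1 : f = fun A => ∑ B : MM n, f B * (if A = B then (1 : ℝ) else 0) := by
    funext A
    simp
  conv_lhs => rw [h1]
  unfold EE pm
  rw [Sg_sum_apply]
  refine Finset.sum_congr rfl fun B _ => ?_
  rw [Sg_mul_apply, mul_comm]
  rfl

open Classical in
/-- the bound for the density in matrix coordinates -/
theorem softLe_of_EE {n : ℕ} (hn : 2 ≤ n) {t R q : ℝ} (ht : 0 ≤ t)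
    (h : EE n t (fun A => if R ≤ pm n t A * 2 ^ (n * (n - 1) / 2) then (1 : ℝ) else 0) ≤ q) :
    SoftLe n t R q := by
  classical
  unfold SoftLe
  refine le_trans ?_ h
  rw [EE_expand]
  have h1 : ∀ x : Un n, (if R ≤ ct n t x * (Fintype.card (Un n) : ℝ) then ct n t x else 0)
      = pm n t (toMat n x) *
        (if R ≤ pm n t (toMat n x) * 2 ^ (n * (n - 1) / 2) then (1 : ℝ) else 0) := by
    intro x
    rw [ct_eq_pm hn, card_Un]
    push_cast
    split_ifs
    · rw [mul_one]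
    · rw [mul_zero]
  rw [Finset.sum_congr rfl fun x _ => h1 x,
    ← Finset.sum_image (s := Finset.univ) (g := toMat n)
      (f := fun B : MM n => pm n t B *
        (if R ≤ pm n t B * 2 ^ (n * (n - 1) / 2) then (1 : ℝ) else 0))
      (fun x _ y _ hxy => toMat_injective n hxy)]
  refine Finset.sum_le_sum_of_subset_of_nonneg (Finset.subset_univ _) fun B _ _ => ?_
  have := pm_nonneg n ht B
  split_ifs
  · rw [mul_one]
    exact this
  · rw [mul_zero]

open Classical in
/-- the bound for the density from the ranks of the corners and the bound for the density on the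
event that the ranks are nearly generic -/
theorem soft_of_cell
    (hrank : ∀ δ ε q : ℝ, 0 < δ → 0 < ε → 0 < q → ∀ᶠ n : ℕ in atTop,
      EE n ((1 + δ) * n / (2 * JJ)) (fun A => if NearGen ε A then (0 : ℝ) else 1) ≤ q)
    (hcell : ∀ δ σ q : ℝ, 0 < δ → 0 < σ → 0 < q → ∃ ε : ℝ, 0 < ε ∧ ∀ᶠ n : ℕ in atTop,
      EE n ((1 + δ) * n / (2 * JJ)) (fun A => if NearGen ε A ∧ Real.exp (σ * (n : ℝ) ^ 2) ≤
        pm n ((1 + δ) * n / (2 * JJ)) A * 2 ^ (n * (n - 1) / 2) then (1 : ℝ) else 0) ≤ q) :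
    ∀ δ σ q : ℝ, 0 < δ → 0 < σ → 0 < q → ∀ᶠ n : ℕ in atTop,
      SoftLe n ((1 + δ) * n / (2 * JJ)) (Real.exp (σ * (n : ℝ) ^ 2)) q := by
  intro δ σ q hδ hσ hq
  have hJ : 0 < JJ := Pool.Agent.Helper8.UT.JJ_pos
  obtain ⟨ε, hε, h1⟩ := hcell δ σ (q / 2) hδ hσ (by positivity)
  filter_upwards [h1, hrank δ ε (q / 2) hδ hε (by positivity), eventually_ge_atTop 2]
    with n h2 h3 hn
  have ht : 0 ≤ (1 + δ) * (n : ℝ) / (2 * JJ) := by positivity
  refine softLe_of_EE hn ht ?_
  refine le_trans (EE_mono ht (g := fun A => (if NearGen ε A ∧ Real.exp (σ * (n : ℝ) ^ 2) ≤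
        pm n ((1 + δ) * n / (2 * JJ)) A * 2 ^ (n * (n - 1) / 2) then (1 : ℝ) else 0) +
      (if NearGen ε A then (0 : ℝ) else 1)) fun A _ => ?_) ?_
  · by_cases hA : NearGen ε A
    · by_cases hB : Real.exp (σ * (n : ℝ) ^ 2) ≤
        pm n ((1 + δ) * n / (2 * JJ)) A * 2 ^ (n * (n - 1) / 2)
      · rw [if_pos hB, if_pos ⟨hA, hB⟩, if_pos hA]
        norm_num
      · rw [if_neg hB, if_neg (fun h : _ ∧ _ => hB h.2), if_pos hA]
        norm_num
    · rw [if_neg hA, if_neg (fun h : _ ∧ _ => hA h.1)]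
      split_ifs <;> norm_num
  · rw [EE_add]
    linarith

end Pool.Agent.CutFull
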